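import Mathlib

namespace Pool.Agent.MP_ef552a_pr

open MeasureTheory ProbabilityTheory Filter Topology Finset
open scoped NNReal ENNReal

variable {d : ℕ} {Ω : Type} [MeasurableSpace Ω] {P : Measure Ω} [IsProbabilityMeasure P]
  {B : Ω → ℝ≥0 × ℝ≥0 → Fin d → ℝ}

/-- covariance kernel -/
noncomputable def Kc (d : ℕ) (t t' : (ℝ≥0 × ℝ≥0) × Fin d) : ℝ :=
  if t.2 = t'.2 then ((min t.1.1 t'.1.1 * min t.1.2 t'.1.2 : ℝ≥0) : ℝ) else 0

/-- the defining property of the sheet (finite linear combinations) -/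
def SheetLaw (P : Measure Ω) (B : Ω → ℝ≥0 × ℝ≥0 → Fin d → ℝ) : Prop :=
  ∀ (n : ℕ) (c : Fin n → ℝ) (k : Fin n → Fin d) (p : Fin n → ℝ≥0 × ℝ≥0),
    P.map (fun ω => ∑ i, c i * B ω (p i) (k i)) =
      gaussianReal 0
        (∑ i, ∑ j, c i * c j *
          (if k i = k j then
            ((min (p i).1 (p j).1 * min (p i).2 (p j).2 : ℝ≥0) : ℝ)
           else 0)).toNNReal

omit [IsProbabilityMeasure P] in
theorem SheetLaw.aemeasurable (h : SheetLaw P B) (p : ℝ≥0 × ℝ≥0) (κ : Fin d) :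
    AEMeasurable (fun ω => B ω p κ) P := by
  have h1 := h 1 (fun _ => 1) (fun _ => κ) (fun _ => p)
  simp only [Fin.sum_univ_one, one_mul] at h1
  apply AEMeasurable.of_map_ne_zero
  rw [h1]
  exact NeZero.ne _

omit [IsProbabilityMeasure P] in
theorem SheetLaw.isGaussianProcess (h : SheetLaw P B) :
    IsGaussianProcess (fun (t : (ℝ≥0 × ℝ≥0) × Fin d) ω => B ω t.1 t.2) P where
  hasGaussianLaw I := by
    constructor
    have hm : AEMeasurable (fun ω => I.restrict (fun (t : (ℝ≥0 × ℝ≥0) × Fin d) => B ω t.1 t.2)) P :=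
      aemeasurable_pi_lambda _ fun i => h.aemeasurable _ _
    apply isGaussian_of_map_eq_gaussianReal
    intro L
    rw [AEMeasurable.map_map_of_aemeasurable (by fun_prop) hm]
    classical
    let e := Fintype.equivFin I
    have h1 := h (Fintype.card I) (fun i => L (Pi.single (e.symm i) 1))
      (fun i => (e.symm i).1.2) (fun i => (e.symm i).1.1)
    refine ⟨0, _, Eq.trans ?_ h1⟩
    congr 1
    ext ω
    simp only [Function.comp_apply]
    rw [Equiv.sum_comp e.symm (fun i => L (Pi.single i 1) * B ω i.1.1 i.1.2)]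
    conv_lhs => rw [← Finset.univ_sum_single (I.restrict
      (fun (t : (ℝ≥0 × ℝ≥0) × Fin d) => B ω t.1 t.2))]
    rw [map_sum]
    refine Finset.sum_congr rfl fun i _ => ?_
    have h2 : (Pi.single i (I.restrict (fun (t : (ℝ≥0 × ℝ≥0) × Fin d) => B ω t.1 t.2) i) : I → ℝ) =
        (B ω i.1.1 i.1.2) • (Pi.single i (1 : ℝ) : I → ℝ) := by
      rw [← Pi.single_smul]
      congr 1
      simp [Finset.restrict]
    rw [h2, map_smul, smul_eq_mul, mul_comm]

omit [IsProbabilityMeasure P] in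
theorem SheetLaw.mean (h : SheetLaw P B) (p : ℝ≥0 × ℝ≥0) (κ : Fin d) :
    ∫ ω, B ω p κ ∂P = 0 := by
  have h1 := h 1 (fun _ => 1) (fun _ => κ) (fun _ => p)
  simp only [Fin.sum_univ_one, one_mul] at h1
  have h2 : ∫ ω, B ω p κ ∂P = ∫ x, x ∂(P.map (fun ω => B ω p κ)) := by
    rw [integral_map (h.aemeasurable p κ) (by fun_prop)]
  rw [h2, h1, integral_id_gaussianReal]

omit [IsProbabilityMeasure P] in
theorem SheetLaw.memLp (h : SheetLaw P B) (p : ℝ≥0 × ℝ≥0) (κ : Fin d) :
    MemLp (fun ω => B ω p κ) 2 P :=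
  (h.isGaussianProcess.hasGaussianLaw_eval (p, κ)).memLp_two

theorem SheetLaw.cov (h : SheetLaw P B) (t t' : (ℝ≥0 × ℝ≥0) × Fin d) :
    cov[fun ω => B ω t.1 t.2, fun ω => B ω t'.1 t'.2; P] = Kc d t t' := by
  have hm := h.aemeasurable
  have hvar1 : ∀ t : (ℝ≥0 × ℝ≥0) × Fin d, Var[fun ω => B ω t.1 t.2; P] = Kc d t t := by
    intro t
    have h1 := h 1 (fun _ => 1) (fun _ => t.2) (fun _ => t.1)
    simp only [Fin.sum_univ_one, one_mul, if_true] at h1
    have h2 : Var[fun ω => B ω t.1 t.2; P] = Var[id; P.map (fun ω => B ω t.1 t.2)] := by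
      rw [variance_map (by fun_prop) (hm _ _)]
      rfl
    rw [h2, h1, variance_id_gaussianReal]
    unfold Kc
    rw [if_pos rfl, Real.coe_toNNReal _ (by positivity)]
  have hvar2 : Var[fun ω => B ω t.1 t.2 + B ω t'.1 t'.2; P] =
      Kc d t t + Kc d t' t' + 2 * Kc d t t' := by
    have h1 := h 2 (fun _ => 1) (fun i => if i = 0 then t.2 else t'.2)
      (fun i => if i = 0 then t.1 else t'.1)
    simp only [Fin.sum_univ_two, one_mul, if_true, one_ne_zero, if_false] at h1
    have h2 : Var[fun ω => B ω t.1 t.2 + B ω t'.1 t'.2; P] =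
        Var[id; P.map (fun ω => B ω t.1 t.2 + B ω t'.1 t'.2)] := by
      have hmm : AEMeasurable (fun ω => B ω t.1 t.2 + B ω t'.1 t'.2) P :=
        (hm _ _).add (hm _ _)
      rw [variance_map (by fun_prop) hmm]
      rfl
    rw [h2]
    rw [h1, variance_id_gaussianReal, Real.coe_toNNReal]
    · unfold Kc
      simp only [if_true]
      rw [min_comm t'.1.1 t.1.1, min_comm t'.1.2 t.1.2]
      by_cases h3 : t.2 = t'.2
      · rw [if_pos h3, if_pos h3.symm]; ring
      · rw [if_neg h3, if_neg (fun h4 => h3 h4.symm)]; ring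
    · refine add_nonneg (add_nonneg ?_ ?_) (add_nonneg ?_ ?_)
      · positivity
      · split_ifs <;> positivity
      · split_ifs <;> positivity
      · positivity
  have h3 := variance_add (h.memLp t.1 t.2) (h.memLp t'.1 t'.2)
  have h4 : Var[(fun ω => B ω t.1 t.2) + fun ω => B ω t'.1 t'.2; P] =
      Var[fun ω => B ω t.1 t.2 + B ω t'.1 t'.2; P] := rfl
  rw [h4, hvar2, hvar1, hvar1] at h3
  linarith

end Pool.Agent.MP_ef552a_pr
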