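import Mathlib

namespace Pool.Agent.MP_ef552a_pr

open MeasureTheory ProbabilityTheory Filter Topology
open scoped NNReal ENNReal

/-- upper bound for the probability of an interval -/
theorem gaussian_Ioo_le {v : ℝ≥0} (hv : v ≠ 0) {δ : ℝ} (hδ : 0 ≤ δ) (x : ℝ) :
    (gaussianReal 0 v) (Set.Ioo (x - δ) (x + δ)) ≤
      ENNReal.ofReal (2 * δ * (√(2 * Real.pi * v))⁻¹) := by
  rw [gaussianReal_apply 0 hv]
  have h1 : ∀ y, gaussianPDF 0 v y ≤ ENNReal.ofReal ((√(2 * Real.pi * v))⁻¹) := by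
    intro y
    unfold gaussianPDF gaussianPDFReal
    apply ENNReal.ofReal_le_ofReal
    have h2 : Real.exp (-(y - 0) ^ 2 / (2 * v)) ≤ 1 := by
      rw [Real.exp_le_one_iff]
      apply div_nonpos_of_nonpos_of_nonneg
      · have := sq_nonneg (y - 0); linarith
      · positivity
    calc _ ≤ (√(2 * Real.pi * v))⁻¹ * 1 := mul_le_mul_of_nonneg_left h2 (by positivity)
      _ = _ := mul_one _
  calc ∫⁻ y in Set.Ioo (x - δ) (x + δ), gaussianPDF 0 v y
      ≤ ∫⁻ _ in Set.Ioo (x - δ) (x + δ), ENNReal.ofReal ((√(2 * Real.pi * v))⁻¹) :=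
        lintegral_mono fun y => h1 y
    _ = ENNReal.ofReal ((√(2 * Real.pi * v))⁻¹) * volume (Set.Ioo (x - δ) (x + δ)) := by
        rw [setLIntegral_const]
    _ = ENNReal.ofReal (2 * δ * (√(2 * Real.pi * v))⁻¹) := by
        rw [Real.volume_Ioo, ← ENNReal.ofReal_mul (by positivity)]
        congr 1; ring

/-- lower bound for the probability of a centred interval -/
theorem le_gaussian_Ioo {v : ℝ≥0} (hv : v ≠ 0) {δ : ℝ} (hδ : 0 ≤ δ) :
    ENNReal.ofReal (2 * δ * ((√(2 * Real.pi * v))⁻¹ * Real.exp (-δ ^ 2 / (2 * v)))) ≤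
      (gaussianReal 0 v) (Set.Ioo (-δ) δ) := by
  rw [gaussianReal_apply 0 hv]
  have h1 : ∀ y ∈ Set.Ioo (-δ) δ,
      ENNReal.ofReal ((√(2 * Real.pi * v))⁻¹ * Real.exp (-δ ^ 2 / (2 * v))) ≤ gaussianPDF 0 v y := by
    intro y hy
    unfold gaussianPDF gaussianPDFReal
    apply ENNReal.ofReal_le_ofReal
    apply mul_le_mul_of_nonneg_left _ (by positivity)
    apply Real.exp_le_exp.mpr
    apply div_le_div_of_nonneg_right _ (by positivity)
    have := abs_lt.mpr ⟨hy.1, hy.2⟩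
    have h2 : y ^ 2 ≤ δ ^ 2 := by
      rw [sq_le_sq, abs_of_nonneg hδ]; exact this.le
    rw [sub_zero]; linarith
  calc ENNReal.ofReal (2 * δ * ((√(2 * Real.pi * v))⁻¹ * Real.exp (-δ ^ 2 / (2 * v))))
      = ENNReal.ofReal ((√(2 * Real.pi * v))⁻¹ * Real.exp (-δ ^ 2 / (2 * v))) *
          volume (Set.Ioo (-δ) δ) := by
        rw [Real.volume_Ioo, ← ENNReal.ofReal_mul (by positivity)]
        congr 1; ring
    _ = ∫⁻ _ in Set.Ioo (-δ) δ,
          ENNReal.ofReal ((√(2 * Real.pi * v))⁻¹ * Real.exp (-δ ^ 2 / (2 * v))) := by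
        rw [setLIntegral_const]
    _ ≤ ∫⁻ y in Set.Ioo (-δ) δ, gaussianPDF 0 v y := setLIntegral_mono' measurableSet_Ioo h1

/-- joint small ball bound -/
theorem joint_small_ball {Ω : Type*} [MeasurableSpace Ω] {P : Measure Ω} [IsProbabilityMeasure P]
    {Z Z' : Ω → ℝ} (hG : HasGaussianLaw (fun ω => (Z ω, Z' ω)) P)
    (hZ : ∫ ω, Z ω ∂P = 0) (hZ' : ∫ ω, Z' ω ∂P = 0) {v v' c : ℝ}
    (hv : Var[Z; P] = v) (hv' : Var[Z'; P] = v') (hc : cov[Z, Z'; P] = c) (hv0 : 0 < v)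
    (hdet : 0 < v * v' - c ^ 2) {δ : ℝ} (hδ : 0 ≤ δ) :
    P {ω | |Z ω| < δ ∧ |Z' ω| < δ} ≤
      ENNReal.ofReal (2 * δ * (√(2 * Real.pi * v))⁻¹) *
        ENNReal.ofReal (2 * δ * (√(2 * Real.pi * ((v * v' - c ^ 2) / v)))⁻¹) := by
  have gZ : HasGaussianLaw Z P := hG.fst
  have gZ' : HasGaussianLaw Z' P := hG.snd
  have mZ := gZ.memLp_two
  have mZ' := gZ'.memLp_two
  set a : ℝ := c / v with ha
  let R : Ω → ℝ := fun ω => Z' ω - a * Z ω
  have gZR : HasGaussianLaw (fun ω => (Z ω, R ω)) P := by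
    let L : ℝ × ℝ →L[ℝ] ℝ × ℝ :=
      (ContinuousLinearMap.fst ℝ ℝ ℝ).prod
        (ContinuousLinearMap.snd ℝ ℝ ℝ - a • ContinuousLinearMap.fst ℝ ℝ ℝ)
    exact hG.map L
  have maZ : MemLp (fun ω => a * Z ω) 2 P := mZ.const_mul a
  have covZR : cov[Z, R; P] = 0 := by
    have e1 : cov[Z, R; P] = cov[Z, Z'; P] - cov[Z, fun ω => a * Z ω; P] :=
      covariance_fun_sub_right mZ mZ' maZ
    rw [e1, covariance_const_mul_right, covariance_self mZ.aemeasurable, hc, hv, ha]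
    field_simp
    ring
  have hind : IndepFun Z R P := gZR.indepFun_of_covariance_eq_zero covZR
  have meanR : ∫ ω, R ω ∂P = 0 := by
    have : ∫ ω, R ω ∂P = ∫ ω, Z' ω ∂P - ∫ ω, a * Z ω ∂P :=
      integral_sub (mZ'.integrable (by norm_num)) (maZ.integrable (by norm_num))
    rw [this, integral_const_mul, hZ, hZ']; ring
  have varR : Var[R; P] = (v * v' - c ^ 2) / v := by
    have e1 : Var[R; P] = Var[Z'; P] - 2 * cov[Z', fun ω => a * Z ω; P] +
        Var[fun ω => a * Z ω; P] := variance_fun_sub mZ' maZ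
    rw [e1, covariance_const_mul_right, covariance_comm, variance_const_mul, hv, hv', hc, ha]
    field_simp
    ring
  have lawZ : P.map Z = gaussianReal 0 v.toNNReal := by
    rw [gZ.map_eq_gaussianReal, hZ, hv]
  have lawR : P.map R = gaussianReal 0 ((v * v' - c ^ 2) / v).toNNReal := by
    rw [gZR.snd.map_eq_gaussianReal, meanR, varR]
  have hw0 : 0 < (v * v' - c ^ 2) / v := div_pos hdet hv0
  let A : Set (ℝ × ℝ) := {p | |p.1| < δ ∧ |p.2 + a * p.1| < δ}
  have hA : MeasurableSet A := by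
    have h1 : IsOpen {p : ℝ × ℝ | |p.1| < δ} := isOpen_lt (by fun_prop) continuous_const
    have h2 : IsOpen {p : ℝ × ℝ | |p.2 + a * p.1| < δ} := isOpen_lt (by fun_prop) continuous_const
    exact (h1.inter h2).measurableSet
  have mZR : AEMeasurable (fun ω => (Z ω, R ω)) P := gZR.aemeasurable
  have e0 : {ω | |Z ω| < δ ∧ |Z' ω| < δ} = (fun ω => (Z ω, R ω)) ⁻¹' A := by
    ext ω
    simp only [Set.mem_ofPred_eq, Set.mem_preimage, A, R, sub_add_cancel]
  rw [e0, ← Measure.map_apply_of_aemeasurable mZR hA,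
    hind.map_prod_eq_prod_map_map gZ.aemeasurable gZR.snd.aemeasurable, lawZ, lawR,
    Measure.prod_apply hA]
  have hsec : ∀ z : ℝ, (gaussianReal 0 ((v * v' - c ^ 2) / v).toNNReal) (Prod.mk z ⁻¹' A) ≤
      (Set.Ioo (0 - δ) (0 + δ)).indicator (fun _ =>
        ENNReal.ofReal (2 * δ * (√(2 * Real.pi * ((v * v' - c ^ 2) / v)))⁻¹)) z := by
    intro z
    by_cases hz : |z| < δ
    · rw [Set.indicator_of_mem (by rw [zero_sub, zero_add]; exact abs_lt.mp hz)]
      have hsub : Prod.mk z ⁻¹' A ⊆ Set.Ioo (-(a * z) - δ) (-(a * z) + δ) := by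
        intro r hr
        have h2 : |r + a * z| < δ := hr.2
        rw [abs_lt] at h2
        exact ⟨by linarith [h2.1], by linarith [h2.2]⟩
      refine (measure_mono hsub).trans ?_
      have h3 := gaussian_Ioo_le (v := ((v * v' - c ^ 2) / v).toNNReal)
        (by rw [Ne, Real.toNNReal_eq_zero, not_le]; exact hw0) hδ (-(a * z))
      rwa [Real.coe_toNNReal _ hw0.le] at h3
    · have : Prod.mk z ⁻¹' A = ∅ := by
        ext r
        simp only [Set.mem_preimage, A, Set.mem_ofPred_eq, Set.mem_empty_iff_false, iff_false]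
        exact fun h => hz h.1
      rw [this, measure_empty]
      exact bot_le
  refine (lintegral_mono hsec).trans ?_
  rw [lintegral_indicator measurableSet_Ioo, setLIntegral_const, mul_comm]
  gcongr
  have h3 := gaussian_Ioo_le (v := v.toNNReal)
    (by rw [Ne, Real.toNNReal_eq_zero, not_le]; exact hv0) hδ 0
  rwa [Real.coe_toNNReal _ hv0.le] at h3

end Pool.Agent.MP_ef552a_pr
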