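import Mathlib
import Pool.Agent.MP_ef552a_pr.GaussProc
import Pool.Agent.MP_ef552a_pr.SmallBall

namespace Pool.Agent.MP_ef552a_pr

open MeasureTheory ProbabilityTheory Filter Topology Finset
open scoped NNReal ENNReal

variable {d : ℕ} {Ω : Type} [MeasurableSpace Ω] {P : Measure Ω} [IsProbabilityMeasure P]
  {B : Ω → ℝ≥0 × ℝ≥0 → Fin d → ℝ}

/-- index of an increment: `(s, t₁, t₂)` and coordinate -/
abbrev IncIdx (d : ℕ) : Type := (ℝ≥0 × ℝ≥0 × ℝ≥0) × Fin d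

/-- increment `B(s, t₂) - B(s, t₁)` -/
def inc (B : Ω → ℝ≥0 × ℝ≥0 → Fin d → ℝ) (i : IncIdx d) (ω : Ω) : ℝ :=
  B ω (i.1.1, i.1.2.2) i.2 - B ω (i.1.1, i.1.2.1) i.2

omit [IsProbabilityMeasure P] in
theorem inc_aemeasurable (h : SheetLaw P B) (i : IncIdx d) : AEMeasurable (inc B i) P :=
  (h.aemeasurable _ _).sub (h.aemeasurable _ _)

omit [IsProbabilityMeasure P] in
theorem inc_gaussian (h : SheetLaw P B) : IsGaussianProcess (inc B) P := by
  classical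
  refine h.isGaussianProcess.of_isGaussianProcess fun i => ?_
  refine ⟨{((i.1.1, i.1.2.2), i.2), ((i.1.1, i.1.2.1), i.2)},
    { toFun x := x ⟨((i.1.1, i.1.2.2), i.2), by simp⟩ - x ⟨((i.1.1, i.1.2.1), i.2), by simp⟩
      map_add' x y := by simp; abel
      map_smul' c x := by simp; ring }, ?_⟩
  intro ω
  simp [inc]

theorem inc_mean (h : SheetLaw P B) (i : IncIdx d) : ∫ ω, inc B i ω ∂P = 0 := by
  unfold inc
  rw [integral_sub ((h.memLp _ _).integrable (by norm_num)) ((h.memLp _ _).integrable (by norm_num)),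
    h.mean, h.mean, sub_zero]

theorem inc_cov (h : SheetLaw P B) (i i' : IncIdx d) :
    cov[inc B i, inc B i'; P] = if i.2 = i'.2 then
      min (i.1.1 : ℝ) i'.1.1 * (min (i.1.2.2 : ℝ) i'.1.2.2 - min (i.1.2.2 : ℝ) i'.1.2.1
        - min (i.1.2.1 : ℝ) i'.1.2.2 + min (i.1.2.1 : ℝ) i'.1.2.1) else 0 := by
  unfold inc
  rw [covariance_fun_sub_fun_sub (h.memLp _ _) (h.memLp _ _) (h.memLp _ _) (h.memLp _ _),
    h.cov ((i.1.1, i.1.2.2), i.2) ((i'.1.1, i'.1.2.2), i'.2),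
    h.cov ((i.1.1, i.1.2.2), i.2) ((i'.1.1, i'.1.2.1), i'.2),
    h.cov ((i.1.1, i.1.2.1), i.2) ((i'.1.1, i'.1.2.2), i'.2),
    h.cov ((i.1.1, i.1.2.1), i.2) ((i'.1.1, i'.1.2.1), i'.2)]
  unfold Kc
  simp only
  split_ifs
  · push_cast; ring
  · ring

end Pool.Agent.MP_ef552a_pr
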