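import Mathlib
import Pool.Agent.MP_ef552a_pr.Incr

namespace Pool.Agent.MP_ef552a_pr

open MeasureTheory ProbabilityTheory Filter Topology Finset
open scoped NNReal ENNReal

theorem det_bound {s s' a a' b b' τ : ℝ} (hτ : 0 < τ) (hs : 1 ≤ s) (hs' : 1 ≤ s')
    (ha1 : a ≤ 2 * τ) (ha1' : a' ≤ 2 * τ)
    (hb : 3 * τ ≤ b) (hb' : 3 * τ ≤ b') :
    τ ^ 2 * |s - s'| + τ * (|a - a'| + |b - b'|) ≤
      (s * (b - a)) * (s' * (b' - a')) - (min s s' * (min b b' - max a a')) ^ 2 := by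
  wlog h : s ≤ s' generalizing s s' a a' b b'
  · have := this hs' hs ha1' ha1 hb' hb (le_of_not_ge h)
    rw [abs_sub_comm s, abs_sub_comm a, abs_sub_comm b, min_comm s, min_comm b, max_comm a]
    linarith
  rw [min_eq_left h, abs_of_nonpos (by linarith : s - s' ≤ 0)]
  set o := min b b' - max a a' with ho
  have ho1 : τ ≤ o := by
    have h1 : 3 * τ ≤ min b b' := le_min hb hb'
    have h2 : max a a' ≤ 2 * τ := max_le ha1 ha1'
    rw [ho]; linarith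
  have hA : o ≤ b - a := by
    rw [ho]; linarith [min_le_left b b', le_max_left a a']
  have hA' : o ≤ b' - a' := by
    rw [ho]; linarith [min_le_right b b', le_max_right a a']
  have hsum : (b - a - o) + (b' - a' - o) = |a - a'| + |b - b'| := by
    rw [ho]
    have h1 : |a - a'| = 2 * max a a' - a - a' := by
      rcases le_total a a' with h | h
      · rw [abs_of_nonpos (by linarith), max_eq_right h]; ring
      · rw [abs_of_nonneg (by linarith), max_eq_left h]; ring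
    have h2 : |b - b'| = b + b' - 2 * min b b' := by
      rcases le_total b b' with h | h
      · rw [abs_of_nonpos (by linarith), min_eq_left h]; ring
      · rw [abs_of_nonneg (by linarith), min_eq_right h]; ring
    rw [h1, h2]; ring
  set A := b - a
  set A' := b' - a'
  rw [← hsum]
  -- A A' - o² ≥ τ ((A - o) + (A' - o))
  have k1 : τ * ((A - o) + (A' - o)) ≤ A * A' - o ^ 2 := by
    have e : A * A' - o ^ 2 = (A - o) * A' + o * (A' - o) := by ring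
    have q1 : τ * (A - o) ≤ A' * (A - o) := mul_le_mul_of_nonneg_right (by linarith) (by linarith)
    have q2 : τ * (A' - o) ≤ o * (A' - o) := mul_le_mul_of_nonneg_right (by linarith) (by linarith)
    rw [e]; linarith
  have k2 : τ ^ 2 ≤ A * A' := by nlinarith
  have k3 : 0 ≤ A * A' - o ^ 2 := by
    have : 0 ≤ τ * ((A - o) + (A' - o)) := mul_nonneg hτ.le (by linarith)
    linarith
  have e1 : s * A * (s' * A') - (s * o) ^ 2 = s * ((s' - s) * (A * A') + s * (A * A' - o ^ 2)) := by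
    ring
  rw [e1]
  have k4 : τ ^ 2 * (s' - s) ≤ (s' - s) * (A * A') := by nlinarith
  have k5 : A * A' - o ^ 2 ≤ s * (A * A' - o ^ 2) := by nlinarith
  have k6 : 0 ≤ (s' - s) * (A * A') + s * (A * A' - o ^ 2) := by
    have : 0 ≤ (s' - s) * (A * A') := mul_nonneg (by linarith) (by nlinarith [sq_nonneg τ])
    have : 0 ≤ s * (A * A' - o ^ 2) := mul_nonneg (by linarith) k3
    linarith
  calc τ ^ 2 * -(s - s') + τ * (A - o + (A' - o))
      ≤ (s' - s) * (A * A') + s * (A * A' - o ^ 2) := by linarith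
    _ ≤ s * ((s' - s) * (A * A') + s * (A * A' - o ^ 2)) := by nlinarith

/-- time scales -/
noncomputable def tau (j : ℕ) : ℝ≥0 := (4 : ℝ≥0)⁻¹ ^ j

theorem tau_pos (j : ℕ) : 0 < tau j := by unfold tau; positivity

theorem tau_lt {i j : ℕ} (h : i < j) : 4 * tau j ≤ tau i := by
  obtain ⟨k, rfl⟩ := Nat.exists_eq_add_of_lt h
  unfold tau
  rw [pow_succ, pow_add]
  have h1 : ((4 : ℝ≥0)⁻¹) ^ k ≤ 1 := pow_le_one₀ (by positivity) (by
    rw [← NNReal.coe_le_coe]; push_cast; norm_num)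
  have h2 : 4 * ((4 : ℝ≥0)⁻¹ ^ i * (4 : ℝ≥0)⁻¹ ^ k * (4 : ℝ≥0)⁻¹) =
      (4 : ℝ≥0)⁻¹ ^ i * (4 : ℝ≥0)⁻¹ ^ k := by
    rw [← NNReal.coe_inj]; push_cast; ring
  rw [h2]
  calc (4 : ℝ≥0)⁻¹ ^ i * (4 : ℝ≥0)⁻¹ ^ k ≤ (4 : ℝ≥0)⁻¹ ^ i * 1 := by gcongr
    _ = _ := mul_one _

/-- the grid -/
abbrev Gr (N : ℕ) : Type := Fin (N ^ 2) × Fin (N ^ 2) × Fin (N ^ 2)

/-- grid point at scale `j` -/
noncomputable def pt (N j : ℕ) (g : Gr N) : ℝ≥0 × ℝ≥0 × ℝ≥0 :=
  (1 + (g.1 : ℕ) / ((N ^ 2 : ℕ) : ℝ≥0), tau j * (1 + (g.2.1 : ℕ) / ((N ^ 2 : ℕ) : ℝ≥0)),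
    tau j * (3 + (g.2.2 : ℕ) / ((N ^ 2 : ℕ) : ℝ≥0)))

theorem fin_div_nonneg {n : ℕ} (r : Fin n) : (0 : ℝ) ≤ (r : ℕ) / (n : ℝ) := by positivity
theorem fin_div_lt_one {n : ℕ} (r : Fin n) : ((r : ℕ) : ℝ) / (n : ℝ) < 1 := by
  have h : 0 < n := r.pos
  rw [div_lt_one (by exact_mod_cast h)]
  exact_mod_cast r.2

section Pts

variable {N : ℕ} (j : ℕ) (g : Gr N)

theorem pt_s : ((pt N j g).1 : ℝ) = 1 + (g.1 : ℕ) / ((N ^ 2 : ℕ) : ℝ) := by
  simp [pt]
theorem pt_a : ((pt N j g).2.1 : ℝ) = tau j * (1 + (g.2.1 : ℕ) / ((N ^ 2 : ℕ) : ℝ)) := by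
  simp [pt]
theorem pt_b : ((pt N j g).2.2 : ℝ) = tau j * (3 + (g.2.2 : ℕ) / ((N ^ 2 : ℕ) : ℝ)) := by
  simp [pt]

theorem pt_s_ge : 1 ≤ ((pt N j g).1 : ℝ) := by
  rw [pt_s]; linarith [fin_div_nonneg g.1]
theorem pt_s_lt : ((pt N j g).1 : ℝ) < 2 := by
  rw [pt_s]; linarith [fin_div_lt_one g.1]
theorem pt_a_ge : (tau j : ℝ) ≤ (pt N j g).2.1 := by
  rw [pt_a]
  have h := tau_pos j
  have h' : (0 : ℝ) < tau j := by exact_mod_cast h
  nlinarith [fin_div_nonneg g.2.1]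
theorem pt_a_lt : ((pt N j g).2.1 : ℝ) < 2 * tau j := by
  rw [pt_a]
  have h' : (0 : ℝ) < tau j := by exact_mod_cast tau_pos j
  nlinarith [fin_div_lt_one g.2.1]
theorem pt_b_ge : 3 * (tau j : ℝ) ≤ (pt N j g).2.2 := by
  rw [pt_b]
  have h' : (0 : ℝ) < tau j := by exact_mod_cast tau_pos j
  nlinarith [fin_div_nonneg g.2.2]
theorem pt_b_lt : ((pt N j g).2.2 : ℝ) < 4 * tau j := by
  rw [pt_b]
  have h' : (0 : ℝ) < tau j := by exact_mod_cast tau_pos j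
  nlinarith [fin_div_lt_one g.2.2]

end Pts

variable {Ω : Type} [MeasurableSpace Ω] {P : Measure Ω} [IsProbabilityMeasure P]
  {B : Ω → ℝ≥0 × ℝ≥0 → Fin 4 → ℝ}

/-- the grid increments: block `m`, index `l`, coordinate `κ`, grid point `g` -/
noncomputable def Y (B : Ω → ℝ≥0 × ℝ≥0 → Fin 4 → ℝ) {N : ℕ} (m l : ℕ) (κ : Fin 4) (g : Gr N) :
    Ω → ℝ := inc B (pt N (Nat.pair m l) g, κ)

theorem cov_Y_scale (h : SheetLaw P B) {N : ℕ} {m l m' l' : ℕ} (hne : (m, l) ≠ (m', l'))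
    (κ κ' : Fin 4) (g g' : Gr N) : cov[Y B m l κ g, Y B m' l' κ' g'; P] = 0 := by
  have hj : Nat.pair m l ≠ Nat.pair m' l' := by
    intro h'
    rw [Nat.pair_eq_pair] at h'
    exact hne (Prod.ext h'.1 h'.2)
  unfold Y
  wlog hlt : Nat.pair m l < Nat.pair m' l' generalizing m l m' l' κ κ' g g'
  · rw [covariance_comm]
    exact this hne.symm κ' κ g' g hj.symm (lt_of_le_of_ne (not_lt.mp hlt) hj.symm)
  rw [inc_cov h]
  simp only
  split_ifs
  · have h1 := tau_lt hlt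
    have h1' : 4 * (tau (Nat.pair m' l') : ℝ) ≤ tau (Nat.pair m l) := by exact_mod_cast h1
    have a1 := pt_a_ge (Nat.pair m l) g
    have b1 := pt_b_ge (Nat.pair m l) g
    have a2 := pt_a_lt (Nat.pair m' l') g'
    have b2 := pt_b_lt (Nat.pair m' l') g'
    have ht : (0 : ℝ) < tau (Nat.pair m l) := by exact_mod_cast tau_pos _
    have ht' : (0 : ℝ) < tau (Nat.pair m' l') := by exact_mod_cast tau_pos _
    rw [min_eq_right (by linarith : ((pt N (Nat.pair m' l') g').2.2 : ℝ) ≤ (pt N (Nat.pair m l) g).2.2),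
      min_eq_right (by linarith : ((pt N (Nat.pair m' l') g').2.1 : ℝ) ≤ (pt N (Nat.pair m l) g).2.2),
      min_eq_right (by linarith : ((pt N (Nat.pair m' l') g').2.2 : ℝ) ≤ (pt N (Nat.pair m l) g).2.1),
      min_eq_right (by linarith : ((pt N (Nat.pair m' l') g').2.1 : ℝ) ≤ (pt N (Nat.pair m l) g).2.1)]
    ring
  · rfl

theorem cov_Y_coord (h : SheetLaw P B) {N : ℕ} {m l m' l' : ℕ} 
    {κ κ' : Fin 4} (hne : κ ≠ κ') (g g' : Gr N) : cov[Y B m l κ g, Y B m' l' κ' g'; P] = 0 := by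
  unfold Y
  rw [inc_cov h, if_neg hne]

theorem cov_Y_same (h : SheetLaw P B) {N : ℕ} (m l : ℕ) (κ : Fin 4) (g g' : Gr N) :
    cov[Y B m l κ g, Y B m l κ g'; P] =
      min ((pt N (Nat.pair m l) g).1 : ℝ) (pt N (Nat.pair m l) g').1 *
        (min ((pt N (Nat.pair m l) g).2.2 : ℝ) (pt N (Nat.pair m l) g').2.2 -
          max ((pt N (Nat.pair m l) g).2.1 : ℝ) (pt N (Nat.pair m l) g').2.1) := by
  unfold Y
  rw [inc_cov h, if_pos rfl]
  simp only
  have a1 := pt_a_lt (Nat.pair m l) g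
  have b1 := pt_b_ge (Nat.pair m l) g
  have a2 := pt_a_lt (Nat.pair m l) g'
  have b2 := pt_b_ge (Nat.pair m l) g'
  have ht : (0 : ℝ) < tau (Nat.pair m l) := by exact_mod_cast tau_pos _
  rw [min_eq_right (by linarith : ((pt N (Nat.pair m l) g').2.1 : ℝ) ≤ (pt N (Nat.pair m l) g).2.2),
    min_eq_left (by linarith : ((pt N (Nat.pair m l) g).2.1 : ℝ) ≤ (pt N (Nat.pair m l) g').2.2)]
  have := min_add_max ((pt N (Nat.pair m l) g).2.1 : ℝ) (pt N (Nat.pair m l) g').2.1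
  congr 1
  linarith

end Pool.Agent.MP_ef552a_pr
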