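import Mathlib
import Pool.Agent.MP_ef552a_pr.Grid

namespace Pool.Agent.MP_ef552a_pr

open MeasureTheory ProbabilityTheory Filter Topology Finset
open scoped NNReal ENNReal

/-- threshold -/
noncomputable def dl (N j : ℕ) : ℝ := (2 : ℝ)⁻¹ ^ j / N

theorem dl_nonneg (N j : ℕ) : 0 ≤ dl N j := by unfold dl; positivity

theorem dl_sq (N j : ℕ) : dl N j ^ 2 = tau j / ((N ^ 2 : ℕ) : ℝ) := by
  unfold dl tau
  rw [div_pow, ← pow_mul, mul_comm j 2, pow_mul]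
  push_cast
  norm_num

/-- indicator of the interval -/
noncomputable def phi (δ : ℝ) : ℝ → ℝ := (Set.Ioo (-δ) δ).indicator (fun _ => 1)

theorem measurable_phi (δ : ℝ) : Measurable (phi δ) :=
  measurable_const.indicator measurableSet_Ioo

theorem phi_nonneg (δ x : ℝ) : 0 ≤ phi δ x := Set.indicator_nonneg (fun _ _ => zero_le_one) _
theorem phi_le_one (δ x : ℝ) : phi δ x ≤ 1 := Set.indicator_le' (fun _ _ => le_rfl)
  (fun _ _ => zero_le_one) _

theorem phi_ne_zero {δ x : ℝ} (h : phi δ x ≠ 0) : |x| < δ := by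
  have := Set.mem_of_indicator_ne_zero h
  exact abs_lt.mpr this

variable {Ω : Type} [MeasurableSpace Ω] {P : Measure Ω} [IsProbabilityMeasure P]
  {B : Ω → ℝ≥0 × ℝ≥0 → Fin 4 → ℝ}

omit [IsProbabilityMeasure P] in
theorem Y_aemeasurable (h : SheetLaw P B) {N : ℕ} (m l : ℕ) (κ : Fin 4) (g : Gr N) :
    AEMeasurable (Y B m l κ g) P := inc_aemeasurable h _

omit [IsProbabilityMeasure P] in
theorem Y_gauss (h : SheetLaw P B) {N : ℕ} (m l : ℕ) (κ : Fin 4) (g : Gr N) :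
    HasGaussianLaw (Y B m l κ g) P := (inc_gaussian h).hasGaussianLaw_eval _

omit [IsProbabilityMeasure P] in
theorem Y_gauss2 (h : SheetLaw P B) {N : ℕ} (m l : ℕ) (κ : Fin 4) (g g' : Gr N) :
    HasGaussianLaw (fun ω => (Y B m l κ g ω, Y B m l κ g' ω)) P :=
  (inc_gaussian h).hasGaussianLaw_prodMk

theorem Y_mean (h : SheetLaw P B) {N : ℕ} (m l : ℕ) (κ : Fin 4) (g : Gr N) :
    ∫ ω, Y B m l κ g ω ∂P = 0 := inc_mean h _

/-- variance of a grid increment -/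
noncomputable def vv {N : ℕ} (j : ℕ) (g : Gr N) : ℝ :=
  ((pt N j g).1 : ℝ) * ((pt N j g).2.2 - (pt N j g).2.1)

theorem Y_var (h : SheetLaw P B) {N : ℕ} (m l : ℕ) (κ : Fin 4) (g : Gr N) :
    Var[Y B m l κ g; P] = vv (Nat.pair m l) g := by
  rw [← covariance_self (Y_aemeasurable h m l κ g), cov_Y_same h, min_self, min_self, max_self]
  rfl

theorem vv_ge {N : ℕ} (j : ℕ) (g : Gr N) : (tau j : ℝ) ≤ vv j g := by
  unfold vv
  have a1 := pt_s_ge j g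
  have a2 := pt_a_lt j g
  have a3 := pt_b_ge j g
  have ht : (0 : ℝ) < tau j := by exact_mod_cast tau_pos _
  nlinarith

theorem vv_le {N : ℕ} (j : ℕ) (g : Gr N) : vv j g ≤ 6 * tau j := by
  unfold vv
  have a0 := pt_s_ge j g
  have a1 := pt_s_lt j g
  have a2 := pt_a_ge j g
  have a3 := pt_b_lt j g
  have ht : (0 : ℝ) < tau j := by exact_mod_cast tau_pos _
  have a4 := pt_b_ge j g
  have a5 := pt_a_lt j g
  have h1 : ((pt N j g).2.2 : ℝ) - (pt N j g).2.1 ≤ 3 * tau j := by linarith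
  have h2 : (0 : ℝ) ≤ ((pt N j g).2.2 : ℝ) - (pt N j g).2.1 := by linarith
  calc ((pt N j g).1 : ℝ) * ((pt N j g).2.2 - (pt N j g).2.1)
      ≤ 2 * ((pt N j g).2.2 - (pt N j g).2.1) := mul_le_mul_of_nonneg_right a1.le h2
    _ ≤ 2 * (3 * tau j) := mul_le_mul_of_nonneg_left h1 (by norm_num)
    _ = 6 * tau j := by ring

theorem E_phi (h : SheetLaw P B) {N : ℕ} (m l : ℕ) (κ : Fin 4) (g : Gr N) (δ : ℝ) :
    ∫ ω, phi δ (Y B m l κ g ω) ∂P =
      ((gaussianReal 0 (vv (Nat.pair m l) g).toNNReal) (Set.Ioo (-δ) δ)).toReal := by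
  have h1 : P.map (Y B m l κ g) = gaussianReal 0 (vv (Nat.pair m l) g).toNNReal := by
    rw [(Y_gauss h m l κ g).map_eq_gaussianReal, Y_mean h, Y_var h]
  rw [← integral_map (f := phi δ) (Y_aemeasurable h m l κ g)
    (measurable_phi δ).aestronglyMeasurable, h1]
  unfold phi
  rw [integral_indicator measurableSet_Ioo]
  simp [Measure.real]

theorem E_phi_le (h : SheetLaw P B) {N : ℕ} (m l : ℕ) (κ : Fin 4) (g : Gr N) :
    ∫ ω, phi (dl N (Nat.pair m l)) (Y B m l κ g ω) ∂P ≤ (N : ℝ)⁻¹ := by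
  rw [E_phi h]
  set j := Nat.pair m l
  have ht : (0 : ℝ) < tau j := by exact_mod_cast tau_pos _
  have hv0 : 0 < vv j g := ht.trans_le (vv_ge j g)
  have h1 := gaussian_Ioo_le (v := (vv j g).toNNReal)
    (by rw [Ne, Real.toNNReal_eq_zero, not_le]; exact hv0) (dl_nonneg N j) 0
  rw [zero_sub, zero_add, Real.coe_toNNReal _ hv0.le] at h1
  have h2 := ENNReal.toReal_le_of_le_ofReal (by have := dl_nonneg N j; positivity) h1
  refine h2.trans ?_
  have h3 : (0 : ℝ) < √(2 * Real.pi * vv j g) := Real.sqrt_pos.mpr (by positivity)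
  rcases Nat.eq_zero_or_pos N with hN | hN
  · subst hN; simp [dl]
  have hN' : (0 : ℝ) < N := by exact_mod_cast hN
  rw [mul_inv_le_iff₀ h3, inv_mul_eq_div, le_div_iff₀ hN']
  apply Real.le_sqrt_of_sq_le
  have h4 : (2 * dl N j * N) ^ 2 = 4 * tau j := by
    have : (2 * dl N j * N) ^ 2 = 4 * dl N j ^ 2 * N ^ 2 := by ring
    rw [this, dl_sq]
    push_cast
    field_simp
  rw [h4]
  have hpi := Real.pi_gt_three
  nlinarith [vv_ge j g]

theorem exp_half : (0.58 : ℝ) ≤ Real.exp (-(1 / 2)) := by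
  have h := Real.add_one_le_exp (-(1 / 8 : ℝ))
  have h2 : Real.exp (-(1 / 2)) = Real.exp (-(1 / 8 : ℝ)) ^ 4 := by
    rw [← Real.exp_nat_mul]; congr 1; norm_num
  rw [h2]
  have h3 : (7 / 8 : ℝ) ≤ Real.exp (-(1 / 8 : ℝ)) := by linarith
  calc (0.58 : ℝ) ≤ (7 / 8 : ℝ) ^ 4 := by norm_num
    _ ≤ _ := pow_le_pow_left₀ (by norm_num) h3 4

theorem E_phi_ge (h : SheetLaw P B) {N : ℕ} (hN : 0 < N) (m l : ℕ) (κ : Fin 4) (g : Gr N) :
    (6 * N : ℝ)⁻¹ ≤ ∫ ω, phi (dl N (Nat.pair m l)) (Y B m l κ g ω) ∂P := by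
  rw [E_phi h]
  set j := Nat.pair m l
  have ht : (0 : ℝ) < tau j := by exact_mod_cast tau_pos _
  have hv0 : 0 < vv j g := ht.trans_le (vv_ge j g)
  have hN' : (0 : ℝ) < N := by exact_mod_cast hN
  have hN1 : (1 : ℝ) ≤ N := by exact_mod_cast hN
  have h1 := le_gaussian_Ioo (v := (vv j g).toNNReal)
    (by rw [Ne, Real.toNNReal_eq_zero, not_le]; exact hv0) (dl_nonneg N j)
  rw [Real.coe_toNNReal _ hv0.le] at h1
  rw [ENNReal.ofReal_le_iff_le_toReal (measure_ne_top _ _)] at h1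
  refine le_trans ?_ h1
  have h3 : (0 : ℝ) < √(2 * Real.pi * vv j g) := Real.sqrt_pos.mpr (by positivity)
  have hd : 0 ≤ dl N j := dl_nonneg N j
  have hexp : (0.58 : ℝ) ≤ Real.exp (-dl N j ^ 2 / (2 * vv j g)) := by
    refine exp_half.trans (Real.exp_le_exp.mpr ?_)
    rw [neg_div, neg_le_neg_iff, div_le_div_iff₀ (by positivity) (by norm_num), dl_sq]
    have e1 : (tau j : ℝ) / ((N ^ 2 : ℕ) : ℝ) ≤ tau j := by
      apply div_le_self ht.le
      have : 1 ≤ N ^ 2 := Nat.one_le_pow _ _ hN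
      exact_mod_cast this
    nlinarith [vv_ge j g]
  have e2 : 2 * dl N j * ((√(2 * Real.pi * vv j g))⁻¹ * 0.58) ≤
      2 * dl N j * ((√(2 * Real.pi * vv j g))⁻¹ * Real.exp (-dl N j ^ 2 / (2 * vv j g))) := by
    gcongr
  refine le_trans ?_ e2
  have e3 : 2 * dl N j * ((√(2 * Real.pi * vv j g))⁻¹ * 0.58) =
      (1.16 * dl N j) * (√(2 * Real.pi * vv j g))⁻¹ := by ring
  rw [e3, le_mul_inv_iff₀ h3, inv_mul_le_iff₀ (by positivity)]
  apply Real.sqrt_le_iff.mpr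
  refine ⟨by positivity, ?_⟩
  have h4 : (6 * N * (1.16 * dl N j)) ^ 2 = 48.4416 * tau j := by
    have : (6 * N * (1.16 * dl N j)) ^ 2 = 48.4416 * dl N j ^ 2 * N ^ 2 := by ring
    rw [this, dl_sq]
    push_cast
    field_simp
  rw [h4]
  have hpi := Real.pi_lt_d2
  have := vv_le j g
  nlinarith [Real.pi_pos]

/-- distance of grid points -/
def gd {N : ℕ} (g g' : Gr N) : ℝ :=
  |((g.1 : ℕ) : ℝ) - (g'.1 : ℕ)| + |((g.2.1 : ℕ) : ℝ) - (g'.2.1 : ℕ)| +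
    |((g.2.2 : ℕ) : ℝ) - (g'.2.2 : ℕ)|

theorem one_le_gd {N : ℕ} {g g' : Gr N} (h : g ≠ g') : 1 ≤ gd g g' := by
  have key : ∀ x y : Fin (N ^ 2), x ≠ y → (1 : ℝ) ≤ |((x : ℕ) : ℝ) - (y : ℕ)| := by
    intro x y hxy
    have h1 : (x : ℕ) ≠ (y : ℕ) := fun h => hxy (Fin.ext h)
    have h2 : (1 : ℤ) ≤ |((x : ℕ) : ℤ) - (y : ℕ)| := by
      apply Int.one_le_abs
      omega
    exact_mod_cast h2
  unfold gd
  have n1 := abs_nonneg (((g.1 : ℕ) : ℝ) - (g'.1 : ℕ))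
  have n2 := abs_nonneg (((g.2.1 : ℕ) : ℝ) - (g'.2.1 : ℕ))
  have n3 := abs_nonneg (((g.2.2 : ℕ) : ℝ) - (g'.2.2 : ℕ))
  by_cases h1 : g.1 = g'.1
  · by_cases h2 : g.2.1 = g'.2.1
    · have h3 : g.2.2 ≠ g'.2.2 := fun h3 => h (Prod.ext h1 (Prod.ext h2 h3))
      linarith [key _ _ h3]
    · linarith [key _ _ h2]
  · linarith [key _ _ h1]

theorem alg_bound {τ n u v det δ : ℝ} (hτ : 0 < τ) (hn : 0 < n) (hu : 1 ≤ u) (hv : 0 < v)
    (hdet : τ ^ 2 * u / n ≤ det) (hδ2 : δ ^ 2 = τ / n) :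
    (2 * δ * (√(2 * Real.pi * v))⁻¹ * (2 * δ * (√(2 * Real.pi * (det / v)))⁻¹)) ^ 2 ≤
      (n * (1 + u))⁻¹ := by
  have hu0 : 0 < u := by linarith
  have hdpos : 0 < det := lt_of_lt_of_le (by positivity) hdet
  have s1 : (√(2 * Real.pi * v))⁻¹ ^ 2 = (2 * Real.pi * v)⁻¹ := by
    rw [inv_pow, Real.sq_sqrt (by positivity)]
  have s2 : (√(2 * Real.pi * (det / v)))⁻¹ ^ 2 = (2 * Real.pi * (det / v))⁻¹ := by
    rw [inv_pow, Real.sq_sqrt (by positivity)]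
  have e5 : (2 * δ * (√(2 * Real.pi * v))⁻¹ * (2 * δ * (√(2 * Real.pi * (det / v)))⁻¹)) ^ 2 =
      16 * (δ ^ 2) ^ 2 * ((√(2 * Real.pi * v))⁻¹ ^ 2 * (√(2 * Real.pi * (det / v)))⁻¹ ^ 2) := by
    ring
  rw [e5, s1, s2, hδ2]
  have e6 : 16 * (τ / n) ^ 2 * ((2 * Real.pi * v)⁻¹ * (2 * Real.pi * (det / v))⁻¹) =
      (4 / Real.pi ^ 2) * (τ / n) ^ 2 / det := by
    field_simp
    ring
  rw [e6]
  have e7 : (4 / Real.pi ^ 2) * (τ / n) ^ 2 / det ≤
      (4 / Real.pi ^ 2) * (τ / n) ^ 2 / (τ ^ 2 * u / n) := by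
    apply div_le_div_of_nonneg_left (by positivity) (by positivity) hdet
  refine e7.trans ?_
  have e8 : (4 / Real.pi ^ 2) * (τ / n) ^ 2 / (τ ^ 2 * u / n) = (4 / Real.pi ^ 2) / (n * u) := by
    field_simp
  rw [e8, div_le_iff₀ (by positivity), inv_mul_eq_div, le_div_iff₀ (by positivity)]
  have hpi : (8 : ℝ) ≤ Real.pi ^ 2 := by nlinarith [Real.pi_gt_three]
  have h9 : 4 / Real.pi ^ 2 ≤ 1 / 2 := by
    rw [div_le_div_iff₀ (by positivity) (by norm_num)]; linarith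
  have h10 : (0 : ℝ) ≤ n * (1 + u) := by positivity
  calc 4 / Real.pi ^ 2 * (n * (1 + u)) ≤ 1 / 2 * (n * (1 + u)) :=
        mul_le_mul_of_nonneg_right h9 h10
    _ ≤ n * u := by nlinarith

theorem E_phi_phi_le (h : SheetLaw P B) {N : ℕ} (hN : 0 < N) (m l : ℕ) (κ : Fin 4) (g g' : Gr N) :
    (∫ ω, phi (dl N (Nat.pair m l)) (Y B m l κ g ω) * phi (dl N (Nat.pair m l)) (Y B m l κ g' ω) ∂P)
      ^ 2 ≤ (((N ^ 2 : ℕ) : ℝ) * (1 + gd g g'))⁻¹ := by
  set j := Nat.pair m l with hj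
  set δ := dl N j with hδ
  have hN' : (0 : ℝ) < N := by exact_mod_cast hN
  have hn' : (0 : ℝ) < ((N ^ 2 : ℕ) : ℝ) := by positivity
  have hδ0 : 0 ≤ δ := dl_nonneg N j
  have hnn : 0 ≤ ∫ ω, phi δ (Y B m l κ g ω) * phi δ (Y B m l κ g' ω) ∂P :=
    integral_nonneg fun ω => mul_nonneg (phi_nonneg _ _) (phi_nonneg _ _)
  by_cases hg : g = g'
  · subst hg
    have e1 : ∀ x, phi δ x * phi δ x = phi δ x := by
      intro x
      unfold phi
      by_cases hx : x ∈ Set.Ioo (-δ) δ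
      · rw [Set.indicator_of_mem hx]; norm_num
      · rw [Set.indicator_of_notMem hx]; norm_num
    simp only [e1] at hnn ⊢
    have h1 := E_phi_le h (N := N) m l κ g
    rw [← hj, ← hδ] at h1
    have h2 : gd g g = 0 := by simp [gd]
    rw [h2, add_zero, mul_one]
    calc _ ≤ ((N : ℝ)⁻¹) ^ 2 := pow_le_pow_left₀ hnn h1 2
      _ = _ := by push_cast; rw [inv_pow]
  · have hu := one_le_gd hg
    have ht : (0 : ℝ) < tau j := by exact_mod_cast tau_pos _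
    have hv0 : 0 < vv j g := ht.trans_le (vv_ge j g)
    have hdet := det_bound ht (pt_s_ge j g) (pt_s_ge j g') (pt_a_lt j g).le (pt_a_lt j g').le
      (pt_b_ge j g) (pt_b_ge j g')
    have hd1 : (tau j : ℝ) ^ 2 * |((pt N j g).1 : ℝ) - (pt N j g').1| + tau j *
        (|((pt N j g).2.1 : ℝ) - (pt N j g').2.1| + |((pt N j g).2.2 : ℝ) - (pt N j g').2.2|) =
        (tau j : ℝ) ^ 2 * gd g g' / ((N ^ 2 : ℕ) : ℝ) := by
      rw [pt_s, pt_s, pt_a, pt_a, pt_b, pt_b]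
      have a1 : (1 : ℝ) + (g.1 : ℕ) / ((N ^ 2 : ℕ) : ℝ) - (1 + (g'.1 : ℕ) / ((N ^ 2 : ℕ) : ℝ)) =
          (((g.1 : ℕ) : ℝ) - (g'.1 : ℕ)) / ((N ^ 2 : ℕ) : ℝ) := by ring
      have a2 : (tau j : ℝ) * (1 + (g.2.1 : ℕ) / ((N ^ 2 : ℕ) : ℝ)) -
          tau j * (1 + (g'.2.1 : ℕ) / ((N ^ 2 : ℕ) : ℝ)) =
          tau j * ((((g.2.1 : ℕ) : ℝ) - (g'.2.1 : ℕ)) / ((N ^ 2 : ℕ) : ℝ)) := by ring
      have a3 : (tau j : ℝ) * (3 + (g.2.2 : ℕ) / ((N ^ 2 : ℕ) : ℝ)) -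
          tau j * (3 + (g'.2.2 : ℕ) / ((N ^ 2 : ℕ) : ℝ)) =
          tau j * ((((g.2.2 : ℕ) : ℝ) - (g'.2.2 : ℕ)) / ((N ^ 2 : ℕ) : ℝ)) := by ring
      rw [a1, a2, a3, abs_mul, abs_mul, abs_div, abs_div, abs_div, abs_of_pos ht, abs_of_pos hn']
      unfold gd
      ring
    rw [hd1] at hdet
    set c : ℝ := min ((pt N j g).1 : ℝ) (pt N j g').1 *
        (min ((pt N j g).2.2 : ℝ) (pt N j g').2.2 - max ((pt N j g).2.1 : ℝ) (pt N j g').2.1) with hc
    have hdet' : (tau j : ℝ) ^ 2 * gd g g' / ((N ^ 2 : ℕ) : ℝ) ≤ vv j g * vv j g' - c ^ 2 := hdet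
    have hdpos : 0 < vv j g * vv j g' - c ^ 2 := lt_of_lt_of_le (by positivity) hdet'
    have hjoint := joint_small_ball (Y_gauss2 h m l κ g g') (Y_mean h m l κ g) (Y_mean h m l κ g')
      (Y_var h m l κ g) (Y_var h m l κ g') (cov_Y_same h m l κ g g') hv0 hdpos (dl_nonneg N j)
    rw [← hδ, ← ENNReal.ofReal_mul (by positivity)] at hjoint
    have hr := ENNReal.toReal_le_of_le_ofReal (by positivity) hjoint
    have hint : ∫ ω, phi δ (Y B m l κ g ω) * phi δ (Y B m l κ g' ω) ∂P =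
        (P {ω | |Y B m l κ g ω| < δ ∧ |Y B m l κ g' ω| < δ}).toReal := by
      have e1 : ∀ ω, phi δ (Y B m l κ g ω) * phi δ (Y B m l κ g' ω) =
          (({p : ℝ × ℝ | |p.1| < δ ∧ |p.2| < δ}).indicator (fun _ => (1 : ℝ)))
            (Y B m l κ g ω, Y B m l κ g' ω) := by
        intro ω
        unfold phi
        by_cases h1 : |Y B m l κ g ω| < δ
        · by_cases h2 : |Y B m l κ g' ω| < δ
          · rw [Set.indicator_of_mem (show Y B m l κ g ω ∈ Set.Ioo (-δ) δ from abs_lt.mp h1),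
              Set.indicator_of_mem (show Y B m l κ g' ω ∈ Set.Ioo (-δ) δ from abs_lt.mp h2),
              Set.indicator_of_mem (show _ ∈ {p : ℝ × ℝ | |p.1| < δ ∧ |p.2| < δ} from ⟨h1, h2⟩),
              mul_one]
          · rw [Set.indicator_of_notMem (s := Set.Ioo (-δ) δ) (a := Y B m l κ g' ω)
              (fun hx => h2 (abs_lt.mpr hx)), mul_zero,
              Set.indicator_of_notMem (fun hx => h2 hx.2)]
        · rw [Set.indicator_of_notMem (s := Set.Ioo (-δ) δ) (a := Y B m l κ g ω)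
              (fun hx => h1 (abs_lt.mpr hx)), zero_mul,
              Set.indicator_of_notMem (fun hx => h1 hx.1)]
      have hA : MeasurableSet {p : ℝ × ℝ | |p.1| < δ ∧ |p.2| < δ} := by
        have h1 : IsOpen {p : ℝ × ℝ | |p.1| < δ} := isOpen_lt (by fun_prop) continuous_const
        have h2 : IsOpen {p : ℝ × ℝ | |p.2| < δ} := isOpen_lt (by fun_prop) continuous_const
        exact (h1.inter h2).measurableSet
      simp only [e1]
      have hm : AEMeasurable (fun ω => (Y B m l κ g ω, Y B m l κ g' ω)) P :=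
        (Y_gauss2 h m l κ g g').aemeasurable
      rw [← integral_map (f := ({p : ℝ × ℝ | |p.1| < δ ∧ |p.2| < δ}).indicator (fun _ => (1 : ℝ)))
        hm (measurable_const.indicator hA).aestronglyMeasurable, integral_indicator hA]
      simp only [integral_const, smul_eq_mul, mul_one, Measure.real, Measure.restrict_apply_univ]
      rw [Measure.map_apply_of_aemeasurable hm hA]
      rfl
    rw [hint] at hnn ⊢
    refine (pow_le_pow_left₀ hnn hr 2).trans ?_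
    exact alg_bound ht hn' hu hv0 hdet' (dl_sq N j)

end Pool.Agent.MP_ef552a_pr
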