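import Mathlib

namespace Pool.Agent.MP_ef552a_pr

open Finset

theorem sum_abs_sub_le (f : ℝ → ℝ) (hf : ∀ x, 0 ≤ f x) (n : ℕ) (p : Fin n) :
    ∑ p' : Fin n, f |((p : ℕ) : ℝ) - (p' : ℕ)| ≤ 2 * ∑ x ∈ range n, f x := by
  have h1 : ∑ p' : Fin n, f |((p : ℕ) : ℝ) - (p' : ℕ)| =
      ∑ p' ∈ range n, f |((p : ℕ) : ℝ) - (p' : ℕ)| :=
    Fin.sum_univ_eq_sum_range (fun p' : ℕ => f |((p : ℕ) : ℝ) - (p' : ℝ)|) n
  rw [h1, ← sum_filter_add_sum_filter_not (range n) (fun p' => p' ≤ (p : ℕ))]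
  have a1 : ∑ p' ∈ (range n).filter (fun p' => p' ≤ (p : ℕ)), f |((p : ℕ) : ℝ) - (p' : ℕ)| ≤
      ∑ x ∈ range n, f x := by
    have e1 : ∑ p' ∈ (range n).filter (fun p' => p' ≤ (p : ℕ)), f |((p : ℕ) : ℝ) - (p' : ℕ)| =
        ∑ x ∈ ((range n).filter (fun p' => p' ≤ (p : ℕ))).image (fun p' => (p : ℕ) - p'),
          f (x : ℝ) := by
      rw [sum_image]
      · refine sum_congr rfl fun x hx => ?_
        have hx' : x ≤ (p : ℕ) := (mem_filter.mp hx).2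
        have hx'' : (x : ℝ) ≤ (p : ℕ) := by exact_mod_cast hx'
        rw [Nat.cast_sub hx', abs_of_nonneg (by linarith)]
      · intro x hx y hy hxy
        have hx' : x ≤ (p : ℕ) := (mem_filter.mp hx).2
        have hy' : y ≤ (p : ℕ) := (mem_filter.mp hy).2
        simp only at hxy
        omega
    rw [e1]
    refine sum_le_sum_of_subset_of_nonneg ?_ (fun _ _ _ => hf _)
    intro x hx
    rw [mem_image] at hx
    obtain ⟨y, hy, rfl⟩ := hx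
    rw [mem_range]
    have := p.2
    omega
  have a2 : ∑ p' ∈ (range n).filter (fun p' => ¬ p' ≤ (p : ℕ)), f |((p : ℕ) : ℝ) - (p' : ℕ)| ≤
      ∑ x ∈ range n, f x := by
    have e1 : ∑ p' ∈ (range n).filter (fun p' => ¬ p' ≤ (p : ℕ)), f |((p : ℕ) : ℝ) - (p' : ℕ)| =
        ∑ x ∈ ((range n).filter (fun p' => ¬ p' ≤ (p : ℕ))).image (fun p' => p' - (p : ℕ)),
          f (x : ℝ) := by
      rw [sum_image]
      · refine sum_congr rfl fun x hx => ?_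
        have hx' : (p : ℕ) ≤ x := (not_le.mp (mem_filter.mp hx).2).le
        have hx'' : ((p : ℕ) : ℝ) ≤ x := by exact_mod_cast hx'
        rw [Nat.cast_sub hx', abs_of_nonpos (by linarith), neg_sub]
      · intro x hx y hy hxy
        have hx' : (p : ℕ) < x := not_le.mp (mem_filter.mp hx).2
        have hy' : (p : ℕ) < y := not_le.mp (mem_filter.mp hy).2
        simp only at hxy
        omega
    rw [e1]
    refine sum_le_sum_of_subset_of_nonneg ?_ (fun _ _ _ => hf _)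
    intro x hx
    rw [mem_image] at hx
    obtain ⟨y, hy, rfl⟩ := hx
    rw [mem_range]
    have := mem_range.mp (mem_filter.mp hy).1
    omega
  linarith

theorem sum_inv_sq_le {a : ℝ} (ha : 1 ≤ a) (n : ℕ) :
    ∑ y ∈ range n, ((a + y) ^ 2)⁻¹ ≤ 2 / a := by
  have h1 : ∀ y ∈ range n, ((a + (y : ℝ)) ^ 2)⁻¹ ≤ 2 / (a + y) - 2 / (a + (y + 1 : ℕ)) := by
    intro y _
    have hp : 0 < a + (y : ℝ) := by positivity
    have hy : (0 : ℝ) ≤ y := Nat.cast_nonneg y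
    push_cast
    rw [div_sub_div _ _ hp.ne' (by positivity), inv_eq_one_div, div_le_div_iff₀ (by positivity)
      (by positivity)]
    nlinarith
  refine (sum_le_sum h1).trans ?_
  rw [sum_range_sub' (fun y : ℕ => 2 / (a + (y : ℝ)))]
  have : 0 ≤ 2 / (a + (n : ℝ)) := by positivity
  simp only [Nat.cast_zero, add_zero]
  linarith

theorem sum_inv_le {b : ℝ} (hb : 1 ≤ b) (n : ℕ) (hbn : b ≤ n) :
    ∑ x ∈ range n, (b + x)⁻¹ ≤ 1 + (Real.log (2 * n) - Real.log b) := by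
  have hn : 0 < n := by
    rcases Nat.eq_zero_or_pos n with h | h
    · subst h; norm_num at hbn; linarith
    · exact h
  obtain ⟨k, rfl⟩ := Nat.exists_eq_succ_of_ne_zero hn.ne'
  rw [sum_range_succ']
  have h1 : ∀ x ∈ range k, (b + ((x + 1 : ℕ) : ℝ))⁻¹ ≤
      Real.log (b + ((x + 1 : ℕ) : ℝ)) - Real.log (b + (x : ℕ)) := by
    intro x _
    have hx : (0 : ℝ) ≤ x := Nat.cast_nonneg x
    have hp : 0 < b + (x : ℝ) := by positivity
    rw [← Real.log_div (by positivity) (by positivity)]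
    have h2 := Real.one_sub_inv_le_log_of_pos
      (show 0 < (b + ((x + 1 : ℕ) : ℝ)) / (b + (x : ℕ)) by positivity)
    refine le_trans (le_of_eq ?_) h2
    push_cast
    field_simp
    ring
  have h2 := sum_le_sum h1
  rw [sum_range_sub (fun x : ℕ => Real.log (b + (x : ℝ)))] at h2
  have h3 : (b + ((0 : ℕ) : ℝ))⁻¹ ≤ 1 := by
    rw [Nat.cast_zero, add_zero]
    exact inv_le_one_of_one_le₀ hb
  have h4 : Real.log (b + (k : ℕ)) ≤ Real.log (2 * ((k + 1 : ℕ) : ℝ)) := by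
    apply Real.log_le_log (by positivity)
    push_cast at hbn ⊢
    linarith
  simp only [Nat.cast_zero, add_zero] at h2 h3 ⊢
  simp only [Nat.succ_eq_add_one] at hbn ⊢
  linarith

/-- double sum over the time grid -/
theorem sum_grid_le (n : ℕ) (p q : Fin n) {ρ : ℝ} (hρ : 0 ≤ ρ) (hρn : 1 + ρ ≤ n) :
    ∑ p' : Fin n, ∑ q' : Fin n,
      ((1 + (ρ + |((p : ℕ) : ℝ) - (p' : ℕ)| + |((q : ℕ) : ℝ) - (q' : ℕ)|)) ^ 2)⁻¹ ≤
      8 * (1 + (Real.log (2 * n) - Real.log (1 + ρ))) := by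
  have h1 : ∀ p' : Fin n, ∑ q' : Fin n,
      ((1 + (ρ + |((p : ℕ) : ℝ) - (p' : ℕ)| + |((q : ℕ) : ℝ) - (q' : ℕ)|)) ^ 2)⁻¹ ≤
      4 * (1 + ρ + |((p : ℕ) : ℝ) - (p' : ℕ)|)⁻¹ := by
    intro p'
    have h2 := sum_abs_sub_le (fun x => ((1 + (ρ + |((p : ℕ) : ℝ) - (p' : ℕ)| + x)) ^ 2)⁻¹)
      (fun x => by positivity) n q
    refine h2.trans ?_
    have h3 := sum_inv_sq_le (a := 1 + ρ + |((p : ℕ) : ℝ) - (p' : ℕ)|)
      (by have := abs_nonneg (((p : ℕ) : ℝ) - (p' : ℕ)); linarith) n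
    have h4 : ∑ x ∈ range n, ((1 + (ρ + |((p : ℕ) : ℝ) - (p' : ℕ)| + (x : ℝ))) ^ 2)⁻¹ =
        ∑ x ∈ range n, ((1 + ρ + |((p : ℕ) : ℝ) - (p' : ℕ)| + (x : ℝ)) ^ 2)⁻¹ := by
      refine sum_congr rfl fun x _ => ?_
      congr 2; ring
    rw [h4]
    calc _ ≤ 2 * (2 / (1 + ρ + |((p : ℕ) : ℝ) - (p' : ℕ)|)) := by linarith
      _ = _ := by rw [div_eq_mul_inv]; ring
  refine (sum_le_sum fun p' _ => h1 p').trans ?_
  rw [← mul_sum]
  have h2 := sum_abs_sub_le (fun x => (1 + ρ + |x|)⁻¹) (fun x => by positivity) n p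
  simp only [abs_abs] at h2
  have h3 := sum_inv_le (b := 1 + ρ) (by linarith) n hρn
  have h4 : ∑ x ∈ range n, (1 + ρ + |(x : ℝ)|)⁻¹ = ∑ x ∈ range n, (1 + ρ + (x : ℝ))⁻¹ := by
    refine sum_congr rfl fun x _ => ?_
    rw [Nat.abs_cast]
  rw [h4] at h2
  linarith

theorem sum_sqrt_inv_le (n : ℕ) : ∑ x ∈ range n, (√(1 + (x : ℝ)))⁻¹ ≤ 2 * √n := by
  induction n with
  | zero => simp
  | succ n ih =>
    rw [sum_range_succ]
    have h1 : 0 < √(1 + (n : ℝ)) := Real.sqrt_pos.mpr (by positivity)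
    have h2 : √(1 + (n : ℝ)) ^ 2 = 1 + n := Real.sq_sqrt (by positivity)
    have h3 : √(n : ℝ) ^ 2 = n := Real.sq_sqrt (by positivity)
    have h0 : 0 ≤ √(n : ℝ) := Real.sqrt_nonneg _
    have e : ((n + 1 : ℕ) : ℝ) = 1 + n := by push_cast; ring
    rw [e]
    have h4 : 2 * √(n : ℝ) + (√(1 + (n : ℝ)))⁻¹ ≤ 2 * √(1 + (n : ℝ)) := by
      have h5 : (√(1 + (n : ℝ)))⁻¹ * √(1 + (n : ℝ)) = 1 := inv_mul_cancel₀ h1.ne'
      have h6 : √(n : ℝ) * √(1 + (n : ℝ)) ≤ (n + (1 + n)) / 2 := by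
        nlinarith [sq_nonneg (√(n : ℝ) - √(1 + (n : ℝ)))]
      have h7 : (2 * √(n : ℝ) + (√(1 + (n : ℝ)))⁻¹) * √(1 + (n : ℝ)) ≤
          (2 * √(1 + (n : ℝ))) * √(1 + (n : ℝ)) := by nlinarith
      exact le_of_mul_le_mul_right h7 h1
    linarith

end Pool.Agent.MP_ef552a_pr
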