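import Mathlib
import Pool.Agent.MP_ef552a_pr.Bounds
import Pool.Agent.MP_ef552a_pr.Sums

namespace Pool.Agent.MP_ef552a_pr

open MeasureTheory ProbabilityTheory Filter Topology Finset
open scoped NNReal ENNReal

/-- bounded measurable random variables -/
def Nice {Ω : Type} [MeasurableSpace Ω] (P : Measure Ω) (T : Ω → ℝ) : Prop :=
  AEMeasurable T P ∧ ∃ C, ∀ ω, |T ω| ≤ C

namespace Nice

variable {Ω : Type} [MeasurableSpace Ω] {P : Measure Ω}

theorem add {T T' : Ω → ℝ} (h : Nice P T) (h' : Nice P T') : Nice P (fun ω => T ω + T' ω) := by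
  obtain ⟨m, C, hC⟩ := h
  obtain ⟨m', C', hC'⟩ := h'
  exact ⟨m.add m', C + C', fun ω => (abs_add_le _ _).trans (add_le_add (hC ω) (hC' ω))⟩

theorem mul {T T' : Ω → ℝ} (h : Nice P T) (h' : Nice P T') : Nice P (fun ω => T ω * T' ω) := by
  obtain ⟨m, C, hC⟩ := h
  obtain ⟨m', C', hC'⟩ := h'
  refine ⟨m.mul m', C * C', fun ω => ?_⟩
  rw [abs_mul]
  exact mul_le_mul (hC ω) (hC' ω) (abs_nonneg _) ((abs_nonneg _).trans (hC ω))

theorem const (c : ℝ) : Nice P (fun _ => c) := ⟨aemeasurable_const, |c|, fun _ => le_rfl⟩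

theorem sum {ι : Type*} (s : Finset ι) {T : ι → Ω → ℝ} (h : ∀ i ∈ s, Nice P (T i)) :
    Nice P (fun ω => ∑ i ∈ s, T i ω) := by
  classical
  induction s using Finset.induction_on with
  | empty => simpa using const 0
  | insert i s hi ih =>
    simp only [Finset.sum_insert hi]
    exact (h i (Finset.mem_insert_self _ _)).add
      (ih fun j hj => h j (Finset.mem_insert_of_mem hj))

theorem prod {ι : Type*} (s : Finset ι) {T : ι → Ω → ℝ} (h : ∀ i ∈ s, Nice P (T i)) :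
    Nice P (fun ω => ∏ i ∈ s, T i ω) := by
  classical
  induction s using Finset.induction_on with
  | empty => simpa using const 1
  | insert i s hi ih =>
    simp only [Finset.prod_insert hi]
    exact (h i (Finset.mem_insert_self _ _)).mul
      (ih fun j hj => h j (Finset.mem_insert_of_mem hj))

theorem integrable [IsFiniteMeasure P] {T : Ω → ℝ} (h : Nice P T) : Integrable T P := by
  obtain ⟨m, C, hC⟩ := h
  exact Integrable.of_bound m.aestronglyMeasurable C (Filter.Eventually.of_forall hC)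

end Nice

variable {Ω : Type} [MeasurableSpace Ω] {P : Measure Ω} [IsProbabilityMeasure P]
  {B : Ω → ℝ≥0 × ℝ≥0 → Fin 4 → ℝ}

/-- the grid function of the process at one scale -/
noncomputable def wf (N j : ℕ) (r : Fin (N ^ 2)) (x : Fin 4 × Gr N → ℝ) : ℝ :=
  ∑ q : Fin (N ^ 2) × Fin (N ^ 2), ∏ κ, phi (dl N j) (x (κ, (r, q)))

theorem measurable_wf (N j : ℕ) (r : Fin (N ^ 2)) : Measurable (wf N j r) := by
  unfold wf
  refine Finset.measurable_sum _ fun q _ => Finset.measurable_prod _ fun κ _ => ?_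
  exact (measurable_phi _).comp (measurable_pi_apply _)

theorem wf_nonneg (N j : ℕ) (r : Fin (N ^ 2)) (x : Fin 4 × Gr N → ℝ) : 0 ≤ wf N j r x :=
  Finset.sum_nonneg fun _ _ => Finset.prod_nonneg fun _ _ => phi_nonneg _ _

/-- the process at one scale, all coordinates -/
noncomputable def proc (B : Ω → ℝ≥0 × ℝ≥0 → Fin 4 → ℝ) (N m l : ℕ) (ω : Ω) :
    Fin 4 × Gr N → ℝ := fun p => Y B m l p.1 p.2 ω

/-- number of (approximate) double points at one scale -/
noncomputable def W (B : Ω → ℝ≥0 × ℝ≥0 → Fin 4 → ℝ) (N m l : ℕ) (r : Fin (N ^ 2)) (ω : Ω) : ℝ :=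
  wf N (Nat.pair m l) r (proc B N m l ω)

omit [IsProbabilityMeasure P] in
theorem nice_phi (h : SheetLaw P B) {N : ℕ} (m l : ℕ) (κ : Fin 4) (g : Gr N) (δ : ℝ) :
    Nice P (fun ω => phi δ (Y B m l κ g ω)) :=
  ⟨(measurable_phi δ).comp_aemeasurable (Y_aemeasurable h m l κ g), 1, fun ω => by
    rw [abs_of_nonneg (phi_nonneg _ _)]; exact phi_le_one _ _⟩

omit [IsProbabilityMeasure P] in
theorem nice_W (h : SheetLaw P B) (N m l : ℕ) (r : Fin (N ^ 2)) : Nice P (W B N m l r) := by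
  unfold W wf proc
  exact Nice.sum _ fun q _ => Nice.prod _ fun κ _ => nice_phi h m l κ _ _

/-- independence of the coordinates -/
theorem indep_coord (h : SheetLaw P B) (N m l : ℕ) :
    iIndepFun (fun (κ : Fin 4) (ω : Ω) (g : Gr N) => Y B m l κ g ω) P := by
  apply IsGaussianProcess.iIndepFun_of_covariance_eq_zero
    (X := fun (κ : Fin 4) (g : Gr N) ω => Y B m l κ g ω)
  · exact (inc_gaussian h).comp_right
      (fun p : (_ : Fin 4) × Gr N => (pt N (Nat.pair m l) p.2, p.1))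
  · intro κ g; exact Y_aemeasurable h m l κ g
  · intro κ κ' hne g g'
    exact cov_Y_coord h hne g g'

theorem E_prod (h : SheetLaw P B) {N : ℕ} (m l : ℕ) (g : Gr N) (δ : ℝ) :
    ∫ ω, ∏ κ, phi δ (Y B m l κ g ω) ∂P = ∏ κ, ∫ ω, phi δ (Y B m l κ g ω) ∂P := by
  have hm : Measurable (fun x : Gr N → ℝ => phi δ (x g)) :=
    (measurable_phi δ).comp (measurable_pi_apply g)
  have := (indep_coord h N m l).integral_fun_prod_comp (f := fun _ x => phi δ (x g))
    (fun κ => aemeasurable_pi_lambda _ fun g => Y_aemeasurable h m l κ g)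
    (fun κ => hm.aestronglyMeasurable)
  exact this

theorem E_prod2 (h : SheetLaw P B) {N : ℕ} (m l : ℕ) (g g' : Gr N) (δ : ℝ) :
    ∫ ω, (∏ κ, phi δ (Y B m l κ g ω)) * (∏ κ, phi δ (Y B m l κ g' ω)) ∂P =
      ∏ κ, ∫ ω, phi δ (Y B m l κ g ω) * phi δ (Y B m l κ g' ω) ∂P := by
  have hm : Measurable (fun x : Gr N → ℝ => phi δ (x g)) :=
    (measurable_phi δ).comp (measurable_pi_apply g)
  have hm' : Measurable (fun x : Gr N → ℝ => phi δ (x g')) :=
    (measurable_phi δ).comp (measurable_pi_apply g')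
  have := (indep_coord h N m l).integral_fun_prod_comp
    (f := fun _ x => phi δ (x g) * phi δ (x g'))
    (fun κ => aemeasurable_pi_lambda _ fun g => Y_aemeasurable h m l κ g)
    (fun κ => (hm.mul hm').aestronglyMeasurable)
  rw [← this]
  simp only [Finset.prod_mul_distrib]

theorem EW_eq (h : SheetLaw P B) (N m l : ℕ) (r : Fin (N ^ 2)) :
    ∫ ω, W B N m l r ω ∂P = ∑ q : Fin (N ^ 2) × Fin (N ^ 2),
      ∏ κ, ∫ ω, phi (dl N (Nat.pair m l)) (Y B m l κ (r, q) ω) ∂P := by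
  unfold W wf proc
  rw [integral_finsetSum _ fun q _ => (Nice.prod _ fun κ _ => nice_phi h m l κ _ _).integrable]
  exact Finset.sum_congr rfl fun q _ => E_prod h m l _ _

theorem EW_le (h : SheetLaw P B) {N : ℕ} (hN : 0 < N) (m l : ℕ) (r : Fin (N ^ 2)) :
    ∫ ω, W B N m l r ω ∂P ≤ 1 := by
  rw [EW_eq h]
  have hN' : (0 : ℝ) < N := by exact_mod_cast hN
  have h1 : ∀ q ∈ (Finset.univ : Finset (Fin (N ^ 2) × Fin (N ^ 2))),
      ∏ κ : Fin 4, ∫ ω, phi (dl N (Nat.pair m l)) (Y B m l κ (r, q) ω) ∂P ≤ ((N : ℝ)⁻¹) ^ 4 := by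
    intro q _
    refine (Finset.prod_le_prod (fun κ _ => integral_nonneg fun ω => phi_nonneg _ _)
      (fun κ _ => E_phi_le h m l κ _)).trans ?_
    simp
  refine (Finset.sum_le_card_nsmul _ _ _ h1).trans ?_
  simp only [Finset.card_univ, Fintype.card_prod, Fintype.card_fin, nsmul_eq_mul]
  apply le_of_eq
  push_cast
  field_simp

theorem EW_ge (h : SheetLaw P B) {N : ℕ} (hN : 0 < N) (m l : ℕ) (r : Fin (N ^ 2)) :
    (1296 : ℝ)⁻¹ ≤ ∫ ω, W B N m l r ω ∂P := by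
  rw [EW_eq h]
  have hN' : (0 : ℝ) < N := by exact_mod_cast hN
  have h1 : ∀ q ∈ (Finset.univ : Finset (Fin (N ^ 2) × Fin (N ^ 2))), ((6 * N : ℝ)⁻¹) ^ 4 ≤
      ∏ κ : Fin 4, ∫ ω, phi (dl N (Nat.pair m l)) (Y B m l κ (r, q) ω) ∂P := by
    intro q _
    refine le_trans (by simp) (Finset.prod_le_prod (fun κ _ => by positivity)
      (fun κ _ => E_phi_ge h hN m l κ _))
  refine le_trans ?_ (Finset.card_nsmul_le_sum _ _ _ h1)
  simp only [Finset.card_univ, Fintype.card_prod, Fintype.card_fin, nsmul_eq_mul]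
  apply le_of_eq
  push_cast
  field_simp
  norm_num

/-- the logarithmic kernel -/
noncomputable def KK (N : ℕ) (r r' : Fin (N ^ 2)) : ℝ :=
  8 * (1 + (Real.log (2 * ((N ^ 2 : ℕ) : ℝ)) - Real.log (1 + |((r : ℕ) : ℝ) - (r' : ℕ)|)))

theorem EWW_le (h : SheetLaw P B) {N : ℕ} (hN : 0 < N) (m l : ℕ) (r r' : Fin (N ^ 2)) :
    ∫ ω, W B N m l r ω * W B N m l r' ω ∂P ≤ KK N r r' := by
  have hN' : (0 : ℝ) < N := by exact_mod_cast hN
  have hn' : (0 : ℝ) < ((N ^ 2 : ℕ) : ℝ) := by positivity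
  have e1 : ∫ ω, W B N m l r ω * W B N m l r' ω ∂P =
      ∑ q : Fin (N ^ 2) × Fin (N ^ 2), ∑ q' : Fin (N ^ 2) × Fin (N ^ 2),
        ∏ κ, ∫ ω, phi (dl N (Nat.pair m l)) (Y B m l κ (r, q) ω) *
          phi (dl N (Nat.pair m l)) (Y B m l κ (r', q') ω) ∂P := by
    unfold W wf proc
    simp only [Finset.sum_mul_sum]
    rw [integral_finsetSum _ fun q _ => (Nice.sum _ fun q' _ =>
      (Nice.prod _ fun κ _ => nice_phi h m l κ _ _).mul
        (Nice.prod _ fun κ _ => nice_phi h m l κ _ _)).integrable]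
    refine Finset.sum_congr rfl fun q _ => ?_
    rw [integral_finsetSum _ fun q' _ => ((Nice.prod _ fun κ _ => nice_phi h m l κ _ _).mul
        (Nice.prod _ fun κ _ => nice_phi h m l κ _ _)).integrable]
    refine Finset.sum_congr rfl fun q' _ => ?_
    exact E_prod2 h m l _ _ _
  rw [e1]
  have h2 : ∀ q q' : Fin (N ^ 2) × Fin (N ^ 2),
      ∏ κ : Fin 4, ∫ ω, phi (dl N (Nat.pair m l)) (Y B m l κ (r, q) ω) *
          phi (dl N (Nat.pair m l)) (Y B m l κ (r', q') ω) ∂P ≤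
        ((((N ^ 2 : ℕ) : ℝ)) ^ 2)⁻¹ * ((1 + gd (r, q) (r', q')) ^ 2)⁻¹ := by
    intro q q'
    set x : ℝ := (((N ^ 2 : ℕ) : ℝ) * (1 + gd (r, q) (r', q')))⁻¹ with hx
    have hgd : 0 ≤ gd (r, q) (r', q') := by unfold gd; positivity
    have hx0 : 0 ≤ x := by rw [hx]; positivity
    have hb : ∀ κ : Fin 4, ∫ ω, phi (dl N (Nat.pair m l)) (Y B m l κ (r, q) ω) *
          phi (dl N (Nat.pair m l)) (Y B m l κ (r', q') ω) ∂P ≤ √x := by
      intro κ
      exact Real.le_sqrt_of_sq_le (E_phi_phi_le h hN m l κ (r, q) (r', q'))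
    refine (Finset.prod_le_prod (fun κ _ => integral_nonneg fun ω =>
      mul_nonneg (phi_nonneg _ _) (phi_nonneg _ _)) (fun κ _ => hb κ)).trans ?_
    rw [Finset.prod_const, Finset.card_univ, Fintype.card_fin]
    have : √x ^ 4 = x ^ 2 := by
      calc √x ^ 4 = (√x ^ 2) ^ 2 := by ring
        _ = x ^ 2 := by rw [Real.sq_sqrt hx0]
    rw [this, hx]
    apply le_of_eq
    rw [inv_pow, mul_pow, mul_inv]
  have h3 : ∀ q : Fin (N ^ 2) × Fin (N ^ 2), ∑ q' : Fin (N ^ 2) × Fin (N ^ 2),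
      ∏ κ : Fin 4, ∫ ω, phi (dl N (Nat.pair m l)) (Y B m l κ (r, q) ω) *
          phi (dl N (Nat.pair m l)) (Y B m l κ (r', q') ω) ∂P ≤
        ((((N ^ 2 : ℕ) : ℝ)) ^ 2)⁻¹ * KK N r r' := by
    intro q
    refine (Finset.sum_le_sum fun q' _ => h2 q q').trans ?_
    rw [← Finset.mul_sum]
    apply mul_le_mul_of_nonneg_left _ (by positivity)
    rw [Fintype.sum_prod_type]
    unfold KK
    refine le_trans (le_of_eq ?_) (sum_grid_le (N ^ 2) q.1 q.2
      (ρ := |((r : ℕ) : ℝ) - (r' : ℕ)|) (abs_nonneg _) ?_)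
    · refine Finset.sum_congr rfl fun p' _ => Finset.sum_congr rfl fun q' _ => ?_
      unfold gd
      rfl
    · have h5 : |((r : ℕ) : ℝ) - (r' : ℕ)| ≤ ((N ^ 2 : ℕ) : ℝ) - 1 := by
        have a1 : ((r : ℕ) : ℝ) ≤ ((N ^ 2 : ℕ) : ℝ) - 1 := by
          have : (r : ℕ) + 1 ≤ N ^ 2 := r.2
          have : (((r : ℕ) + 1 : ℕ) : ℝ) ≤ ((N ^ 2 : ℕ) : ℝ) := by exact_mod_cast this
          push_cast at this ⊢
          linarith
        have a2 : ((r' : ℕ) : ℝ) ≤ ((N ^ 2 : ℕ) : ℝ) - 1 := by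
          have : (r' : ℕ) + 1 ≤ N ^ 2 := r'.2
          have : (((r' : ℕ) + 1 : ℕ) : ℝ) ≤ ((N ^ 2 : ℕ) : ℝ) := by exact_mod_cast this
          push_cast at this ⊢
          linarith
        have a3 : (0 : ℝ) ≤ ((r : ℕ) : ℝ) := Nat.cast_nonneg _
        have a4 : (0 : ℝ) ≤ ((r' : ℕ) : ℝ) := Nat.cast_nonneg _
        rw [abs_le]; constructor <;> linarith
      linarith
  have h4 : ∑ q : Fin (N ^ 2) × Fin (N ^ 2), ∑ q' : Fin (N ^ 2) × Fin (N ^ 2),
      ∏ κ : Fin 4, ∫ ω, phi (dl N (Nat.pair m l)) (Y B m l κ (r, q) ω) *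
          phi (dl N (Nat.pair m l)) (Y B m l κ (r', q') ω) ∂P ≤
        ∑ q : Fin (N ^ 2) × Fin (N ^ 2), ((((N ^ 2 : ℕ) : ℝ)) ^ 2)⁻¹ * KK N r r' :=
    Finset.sum_le_sum fun q _ => h3 q
  refine h4.trans (le_of_eq ?_)
  simp only [Finset.sum_const, Finset.card_univ, Fintype.card_prod, Fintype.card_fin,
    nsmul_eq_mul]
  push_cast
  field_simp

end Pool.Agent.MP_ef552a_pr
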