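import Mathlib
import Pool.Agent.MP_ef552a_pr.Scale

namespace Pool.Agent.MP_ef552a_pr

open MeasureTheory ProbabilityTheory Filter Topology Finset
open scoped NNReal ENNReal

variable {Ω : Type} [MeasurableSpace Ω] {P : Measure Ω} [IsProbabilityMeasure P]
  {B : Ω → ℝ≥0 × ℝ≥0 → Fin 4 → ℝ}

/-- block sizes -/
def Nm (m : ℕ) : ℕ := 32 * 1296 ^ 2 * 2 ^ m

/-- block sum as a function of the process -/
noncomputable def xf (N m : ℕ) (r : Fin (N ^ 2)) (x : ℕ × Fin 4 × Gr N → ℝ) : ℝ :=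
  ∑ l ∈ range (Nm m), wf N (Nat.pair m l) r (fun p => x (l, p))

theorem measurable_xf (N m : ℕ) (r : Fin (N ^ 2)) : Measurable (xf N m r) := by
  unfold xf
  refine Finset.measurable_sum _ fun l _ => (measurable_wf _ _ _).comp ?_
  exact measurable_pi_lambda _ fun p => measurable_pi_apply _

/-- block sum -/
noncomputable def X (B : Ω → ℝ≥0 × ℝ≥0 → Fin 4 → ℝ) (N m : ℕ) (r : Fin (N ^ 2)) (ω : Ω) : ℝ :=
  xf N m r (fun p => Y B m p.1 p.2.1 p.2.2 ω)

omit [MeasurableSpace Ω] in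
theorem X_eq (N m : ℕ) (r : Fin (N ^ 2)) (ω : Ω) :
    X B N m r ω = ∑ l ∈ range (Nm m), W B N m l r ω := rfl

omit [MeasurableSpace Ω] in
theorem X_nonneg (N m : ℕ) (r : Fin (N ^ 2)) (ω : Ω) : 0 ≤ X B N m r ω := by
  rw [X_eq]
  exact Finset.sum_nonneg fun l _ => wf_nonneg _ _ _ _

omit [IsProbabilityMeasure P] in
theorem nice_X (h : SheetLaw P B) (N m : ℕ) (r : Fin (N ^ 2)) : Nice P (X B N m r) := by
  change Nice P (fun ω => ∑ l ∈ range (Nm m), W B N m l r ω)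
  exact Nice.sum _ fun l _ => nice_W h N m l r

/-- independence of scales -/
theorem indep_scale (h : SheetLaw P B) (N m : ℕ) :
    iIndepFun (fun (l : ℕ) (ω : Ω) (p : Fin 4 × Gr N) => Y B m l p.1 p.2 ω) P := by
  apply IsGaussianProcess.iIndepFun_of_covariance_eq_zero
    (X := fun (l : ℕ) (p : Fin 4 × Gr N) ω => Y B m l p.1 p.2 ω)
  · exact (inc_gaussian h).comp_right
      (fun p : (_ : ℕ) × (Fin 4 × Gr N) => (pt N (Nat.pair m p.1) p.2.2, p.2.1))
  · intro l p; exact Y_aemeasurable h m l p.1 p.2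
  · intro l l' hne p p'
    exact cov_Y_scale h (fun h' => hne (congrArg Prod.snd h')) _ _ _ _

/-- independence of blocks -/
theorem indep_block (h : SheetLaw P B) (N : ℕ) :
    iIndepFun (fun (m : ℕ) (ω : Ω) (p : ℕ × Fin 4 × Gr N) => Y B m p.1 p.2.1 p.2.2 ω) P := by
  apply IsGaussianProcess.iIndepFun_of_covariance_eq_zero
    (X := fun (m : ℕ) (p : ℕ × Fin 4 × Gr N) ω => Y B m p.1 p.2.1 p.2.2 ω)
  · exact (inc_gaussian h).comp_right
      (fun p : (_ : ℕ) × (ℕ × Fin 4 × Gr N) => (pt N (Nat.pair p.1 p.2.1) p.2.2.2, p.2.2.1))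
  · intro m p; exact Y_aemeasurable h m p.1 p.2.1 p.2.2
  · intro m m' hne p p'
    exact cov_Y_scale h (fun h' => hne (congrArg Prod.fst h')) _ _ _ _

theorem EWW_ne (h : SheetLaw P B) (N m : ℕ) {l l' : ℕ} (hne : l ≠ l') (r r' : Fin (N ^ 2)) :
    ∫ ω, W B N m l r ω * W B N m l' r' ω ∂P = (∫ ω, W B N m l r ω ∂P) * ∫ ω, W B N m l' r' ω ∂P := by
  have h1 := ((indep_scale h N m).indepFun hne).comp (measurable_wf N (Nat.pair m l) r)
    (measurable_wf N (Nat.pair m l') r')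
  exact h1.integral_mul_eq_mul_integral (nice_W h N m l r).1.aestronglyMeasurable
    (nice_W h N m l' r').1.aestronglyMeasurable

/-- mean of the block sums -/
noncomputable def mu (P : Measure Ω) (B : Ω → ℝ≥0 × ℝ≥0 → Fin 4 → ℝ) (N m : ℕ) (r : Fin (N ^ 2)) :
    ℝ := ∫ ω, X B N m r ω ∂P

theorem mu_eq (h : SheetLaw P B) (N m : ℕ) (r : Fin (N ^ 2)) :
    mu P B N m r = ∑ l ∈ range (Nm m), ∫ ω, W B N m l r ω ∂P := by
  unfold mu
  simp only [X_eq]
  rw [integral_finsetSum _ fun l _ => (nice_W h N m l r).integrable]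

theorem mu_ge (h : SheetLaw P B) {N : ℕ} (hN : 0 < N) (m : ℕ) (r : Fin (N ^ 2)) :
    (Nm m : ℝ) * (1296 : ℝ)⁻¹ ≤ mu P B N m r := by
  rw [mu_eq h]
  refine le_trans ?_ (Finset.card_nsmul_le_sum _ _ _ (fun l _ => EW_ge h hN m l r))
  simp

theorem Nm_pos (m : ℕ) : (0 : ℝ) < Nm m := by unfold Nm; positivity

theorem mu_pos (h : SheetLaw P B) {N : ℕ} (hN : 0 < N) (m : ℕ) (r : Fin (N ^ 2)) :
    0 < mu P B N m r := lt_of_lt_of_le (by have := Nm_pos m; positivity) (mu_ge h hN m r)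

theorem KK_nonneg {N : ℕ} (hN : 0 < N) (h : SheetLaw P B) (r r' : Fin (N ^ 2)) :
    0 ≤ KK N r r' := by
  refine le_trans ?_ (EWW_le h hN 0 0 r r')
  exact integral_nonneg fun ω => mul_nonneg (wf_nonneg _ _ _ _) (wf_nonneg _ _ _ _)

theorem EXX_le (h : SheetLaw P B) {N : ℕ} (hN : 0 < N) (m : ℕ) (r r' : Fin (N ^ 2)) :
    ∫ ω, X B N m r ω * X B N m r' ω ∂P ≤ mu P B N m r * mu P B N m r' + Nm m * KK N r r' := by
  have e1 : ∫ ω, X B N m r ω * X B N m r' ω ∂P =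
      ∑ l ∈ range (Nm m), ∑ l' ∈ range (Nm m), ∫ ω, W B N m l r ω * W B N m l' r' ω ∂P := by
    simp only [X_eq, Finset.sum_mul_sum]
    rw [integral_finsetSum _ fun l _ => (Nice.sum _ fun l' _ =>
      (nice_W h N m l r).mul (nice_W h N m l' r')).integrable]
    refine Finset.sum_congr rfl fun l _ => ?_
    rw [integral_finsetSum _ fun l' _ => ((nice_W h N m l r).mul (nice_W h N m l' r')).integrable]
  rw [e1, mu_eq h, mu_eq h, Finset.sum_mul_sum]
  have h0 : ∀ l (r : Fin (N ^ 2)), 0 ≤ ∫ ω, W B N m l r ω ∂P := fun l r =>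
    integral_nonneg fun ω => wf_nonneg _ _ _ _
  have hK := KK_nonneg hN h r r'
  have h1 : ∀ l ∈ range (Nm m), ∑ l' ∈ range (Nm m), ∫ ω, W B N m l r ω * W B N m l' r' ω ∂P ≤
      ∑ l' ∈ range (Nm m), (∫ ω, W B N m l r ω ∂P) * (∫ ω, W B N m l' r' ω ∂P) + KK N r r' := by
    intro l hl
    have h2 : ∀ l' ∈ range (Nm m), ∫ ω, W B N m l r ω * W B N m l' r' ω ∂P ≤
        (∫ ω, W B N m l r ω ∂P) * (∫ ω, W B N m l' r' ω ∂P) +
          (if l = l' then KK N r r' else 0) := by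
      intro l' _
      split_ifs with hll
      · subst hll
        have := EWW_le h hN m l r r'
        have := mul_nonneg (h0 l r) (h0 l r')
        linarith
      · rw [EWW_ne h N m hll, add_zero]
    refine (Finset.sum_le_sum h2).trans ?_
    rw [Finset.sum_add_distrib, Finset.sum_ite_eq, if_pos hl]
  refine (Finset.sum_le_sum h1).trans ?_
  rw [Finset.sum_add_distrib]
  simp

/-- normalised product over the blocks -/
noncomputable def Pi (P : Measure Ω) (B : Ω → ℝ≥0 × ℝ≥0 → Fin 4 → ℝ) (N M : ℕ) (r : Fin (N ^ 2))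
    (ω : Ω) : ℝ := ∏ m : Fin M, ((mu P B N m r)⁻¹ * X B N m r ω)

omit [IsProbabilityMeasure P] in
theorem nice_Pi (h : SheetLaw P B) (N M : ℕ) (r : Fin (N ^ 2)) : Nice P (Pi P B N M r) :=
  Nice.prod _ fun m _ => (Nice.const _).mul (nice_X h N m r)

theorem E_Pi (h : SheetLaw P B) {N : ℕ} (hN : 0 < N) (M : ℕ) (r : Fin (N ^ 2)) :
    ∫ ω, Pi P B N M r ω ∂P = 1 := by
  have hind := (indep_block h N).precomp (Fin.val_injective (n := M))
  have h1 := hind.integral_fun_prod_comp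
    (f := fun (m : Fin M) x => (mu P B N m r)⁻¹ * xf N m r x)
    (fun m => aemeasurable_pi_lambda _ fun p => Y_aemeasurable h m p.1 p.2.1 p.2.2)
    (fun m => (measurable_const.mul (measurable_xf N m r)).aestronglyMeasurable)
  have h2 : ∫ ω, Pi P B N M r ω ∂P = ∏ m : Fin M, ∫ ω, (mu P B N m r)⁻¹ * X B N m r ω ∂P := h1
  rw [h2]
  apply Finset.prod_eq_one
  intro m _
  rw [integral_const_mul]
  exact inv_mul_cancel₀ (mu_pos h hN m r).ne'

theorem E_Pi_Pi_le (h : SheetLaw P B) {N : ℕ} (hN : 0 < N) (M : ℕ) (r r' : Fin (N ^ 2)) :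
    ∫ ω, Pi P B N M r ω * Pi P B N M r' ω ∂P ≤ Real.exp (KK N r r' / 16) := by
  have hind := (indep_block h N).precomp (Fin.val_injective (n := M))
  have h1 := hind.integral_fun_prod_comp
    (f := fun (m : Fin M) x => ((mu P B N m r)⁻¹ * xf N m r x) * ((mu P B N m r')⁻¹ * xf N m r' x))
    (fun m => aemeasurable_pi_lambda _ fun p => Y_aemeasurable h m p.1 p.2.1 p.2.2)
    (fun m => ((measurable_const.mul (measurable_xf N m r)).mul
      (measurable_const.mul (measurable_xf N m r'))).aestronglyMeasurable)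
  have h2 : ∫ ω, Pi P B N M r ω * Pi P B N M r' ω ∂P =
      ∏ m : Fin M, ∫ ω, ((mu P B N m r)⁻¹ * X B N m r ω) * ((mu P B N m r')⁻¹ * X B N m r' ω) ∂P := by
    refine Eq.trans ?_ h1
    refine integral_congr_ae (Filter.Eventually.of_forall fun ω => ?_)
    simp only [Pi]
    rw [← Finset.prod_mul_distrib]
    rfl
  rw [h2]
  have hK := KK_nonneg hN h r r'
  have h3 : ∀ m : Fin M, ∫ ω, ((mu P B N m r)⁻¹ * X B N m r ω) *
      ((mu P B N m r')⁻¹ * X B N m r' ω) ∂P ≤ Real.exp (KK N r r' / 32 * (2⁻¹) ^ (m : ℕ)) := by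
    intro m
    have e1 : ∀ ω, ((mu P B N m r)⁻¹ * X B N m r ω) * ((mu P B N m r')⁻¹ * X B N m r' ω) =
        ((mu P B N m r)⁻¹ * (mu P B N m r')⁻¹) * (X B N m r ω * X B N m r' ω) := fun ω => by ring
    simp only [e1]
    rw [integral_const_mul]
    have p1 := mu_pos h hN m r
    have p2 := mu_pos h hN m r'
    have g1 := mu_ge h hN m r
    have g2 := mu_ge h hN m r'
    have hNm := Nm_pos m
    have h4 := EXX_le h hN m r r'
    have h5 : (mu P B N m r)⁻¹ * (mu P B N m r')⁻¹ * ∫ ω, X B N m r ω * X B N m r' ω ∂P ≤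
        (mu P B N m r)⁻¹ * (mu P B N m r')⁻¹ *
          (mu P B N m r * mu P B N m r' + Nm m * KK N r r') :=
      mul_le_mul_of_nonneg_left h4 (by positivity)
    refine h5.trans ?_
    have h6 : (mu P B N m r)⁻¹ * (mu P B N m r')⁻¹ *
          (mu P B N m r * mu P B N m r' + Nm m * KK N r r') =
        1 + (Nm m * KK N r r') / (mu P B N m r * mu P B N m r') := by
      field_simp
    rw [h6]
    have h7 : (Nm m * KK N r r') / (mu P B N m r * mu P B N m r') ≤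
        (Nm m * KK N r r') / ((Nm m * (1296 : ℝ)⁻¹) * (Nm m * (1296 : ℝ)⁻¹)) := by
      apply div_le_div_of_nonneg_left (by positivity) (by positivity)
      exact mul_le_mul g1 g2 (by positivity) p1.le
    have h8 : (Nm m * KK N r r') / ((Nm m * (1296 : ℝ)⁻¹) * (Nm m * (1296 : ℝ)⁻¹)) =
        KK N r r' / 32 * (2⁻¹) ^ (m : ℕ) := by
      unfold Nm
      push_cast
      rw [inv_pow]
      field_simp
      ring
    rw [h8] at h7
    have h9 := Real.add_one_le_exp (KK N r r' / 32 * (2⁻¹) ^ (m : ℕ))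
    linarith
  have h0 : ∀ m : Fin M, 0 ≤ ∫ ω, ((mu P B N m r)⁻¹ * X B N m r ω) *
      ((mu P B N m r')⁻¹ * X B N m r' ω) ∂P := fun m => integral_nonneg fun ω =>
    mul_nonneg (mul_nonneg (inv_nonneg.mpr (mu_pos h hN m r).le) (X_nonneg _ _ _ _))
      (mul_nonneg (inv_nonneg.mpr (mu_pos h hN m r').le) (X_nonneg _ _ _ _))
  refine (Finset.prod_le_prod (fun m _ => h0 m) (fun m _ => h3 m)).trans ?_
  rw [← Real.exp_sum]
  apply Real.exp_le_exp.mpr
  rw [← Finset.mul_sum]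
  have h10 : ∑ m : Fin M, ((2 : ℝ)⁻¹) ^ (m : ℕ) ≤ 2 := by
    rw [Fin.sum_univ_eq_sum_range (fun m => ((2 : ℝ)⁻¹) ^ m) M]
    have := (summable_geometric_of_lt_one (r := (2 : ℝ)⁻¹) (by norm_num) (by norm_num)).sum_le_tsum
      (range M) (fun _ _ => by positivity)
    refine this.trans ?_
    rw [tsum_geometric_of_lt_one (by norm_num) (by norm_num)]
    norm_num
  calc KK N r r' / 32 * ∑ m : Fin M, ((2 : ℝ)⁻¹) ^ (m : ℕ) ≤ KK N r r' / 32 * 2 :=
        mul_le_mul_of_nonneg_left h10 (by positivity)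
    _ = KK N r r' / 16 := by ring

/-- the total (second moment) random variable -/
noncomputable def Sx (P : Measure Ω) (B : Ω → ℝ≥0 × ℝ≥0 → Fin 4 → ℝ) (N M : ℕ) (ω : Ω) : ℝ :=
  ∑ r : Fin (N ^ 2), Pi P B N M r ω

theorem E_Sx (h : SheetLaw P B) {N : ℕ} (hN : 0 < N) (M : ℕ) :
    ∫ ω, Sx P B N M ω ∂P = ((N ^ 2 : ℕ) : ℝ) := by
  unfold Sx
  rw [integral_finsetSum _ fun r _ => (nice_Pi h N M r).integrable]
  simp [E_Pi h hN M]

theorem E_Sx_sq (h : SheetLaw P B) {N : ℕ} (hN : 0 < N) (M : ℕ) :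
    ∫ ω, Sx P B N M ω ^ 2 ∂P ≤ 10 * ((N ^ 2 : ℕ) : ℝ) ^ 2 := by
  have hN' : (0 : ℝ) < N := by exact_mod_cast hN
  set n : ℕ := N ^ 2 with hn
  have hn' : (0 : ℝ) < (n : ℝ) := by rw [hn]; positivity
  have e1 : ∫ ω, Sx P B N M ω ^ 2 ∂P = ∑ r : Fin (N ^ 2), ∑ r' : Fin (N ^ 2),
      ∫ ω, Pi P B N M r ω * Pi P B N M r' ω ∂P := by
    unfold Sx
    simp only [sq (∑ r : Fin (N ^ 2), _), Finset.sum_mul_sum]
    rw [integral_finsetSum _ fun r _ => (Nice.sum _ fun r' _ =>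
      (nice_Pi h N M r).mul (nice_Pi h N M r')).integrable]
    refine Finset.sum_congr rfl fun r _ => ?_
    rw [integral_finsetSum _ fun r' _ => ((nice_Pi h N M r).mul (nice_Pi h N M r')).integrable]
  rw [e1]
  have h1 : ∀ r r' : Fin (N ^ 2), ∫ ω, Pi P B N M r ω * Pi P B N M r' ω ∂P ≤
      (Real.exp (1 / 2) * √(2 * n)) * (√(1 + |((r : ℕ) : ℝ) - (r' : ℕ)|))⁻¹ := by
    intro r r'
    refine (E_Pi_Pi_le h hN M r r').trans (le_of_eq ?_)
    unfold KK
    have a1 : (0 : ℝ) < 1 + |((r : ℕ) : ℝ) - (r' : ℕ)| := by positivity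
    have a2 : (0 : ℝ) < 2 * (n : ℝ) := by positivity
    have e2 : 8 * (1 + (Real.log (2 * ((N ^ 2 : ℕ) : ℝ)) -
        Real.log (1 + |((r : ℕ) : ℝ) - (r' : ℕ)|))) / 16 =
        1 / 2 + Real.log (√(2 * n)) + Real.log ((√(1 + |((r : ℕ) : ℝ) - (r' : ℕ)|))⁻¹) := by
      rw [Real.log_inv, Real.log_sqrt a2.le, Real.log_sqrt a1.le]
      ring
    rw [e2, Real.exp_add, Real.exp_add, Real.exp_log (Real.sqrt_pos.mpr a2),
      Real.exp_log (inv_pos.mpr (Real.sqrt_pos.mpr a1))]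
  have h2 : ∀ r : Fin (N ^ 2), ∑ r' : Fin (N ^ 2), ∫ ω, Pi P B N M r ω * Pi P B N M r' ω ∂P ≤
      (Real.exp (1 / 2) * √(2 * n)) * (4 * √n) := by
    intro r
    refine (Finset.sum_le_sum fun r' _ => h1 r r').trans ?_
    rw [← Finset.mul_sum]
    apply mul_le_mul_of_nonneg_left _ (by positivity)
    have h3 := sum_abs_sub_le (fun x => (√(1 + |x|))⁻¹) (fun x => by positivity) (N ^ 2) r
    simp only [abs_abs] at h3
    have h4 := sum_sqrt_inv_le (N ^ 2)
    have h5 : ∑ x ∈ range (N ^ 2), (√(1 + |(x : ℝ)|))⁻¹ =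
        ∑ x ∈ range (N ^ 2), (√(1 + (x : ℝ)))⁻¹ := by
      refine Finset.sum_congr rfl fun x _ => ?_
      rw [Nat.abs_cast]
    rw [h5] at h3
    rw [← hn] at h4
    linarith
  refine (Finset.sum_le_sum fun r _ => h2 r).trans ?_
  simp only [Finset.sum_const, Finset.card_univ, Fintype.card_fin, nsmul_eq_mul]
  rw [← hn]
  have e3 : √(2 * (n : ℝ)) * √n = √2 * n := by
    rw [Real.sqrt_mul (by norm_num), mul_assoc, Real.mul_self_sqrt hn'.le]
  have h6 : Real.exp (1 / 2) ≤ 1.65 := by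
    have h7 : Real.exp (1 / 2) ^ 2 = Real.exp 1 := by
      rw [← Real.exp_nat_mul]; congr 1; norm_num
    have h8 := Real.exp_one_lt_d9
    have h9 := Real.exp_pos (1 / 2)
    nlinarith
  have h10 : √2 ≤ 1.415 := by
    rw [Real.sqrt_le_iff]; norm_num
  have h11 : (0 : ℝ) ≤ √2 := Real.sqrt_nonneg _
  calc (n : ℝ) * (Real.exp (1 / 2) * √(2 * n) * (4 * √n))
      = (4 * (Real.exp (1 / 2) * √2)) * (n : ℝ) ^ 2 := by
        have : (n : ℝ) * (Real.exp (1 / 2) * √(2 * n) * (4 * √n)) =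
          4 * n * Real.exp (1 / 2) * (√(2 * n) * √n) := by ring
        rw [this, e3]; ring
    _ ≤ 10 * (n : ℝ) ^ 2 := by
        apply mul_le_mul_of_nonneg_right _ (by positivity)
        have : Real.exp (1 / 2) * √2 ≤ 1.65 * 1.415 :=
          mul_le_mul h6 h10 h11 (by norm_num)
        linarith

/-- Paley-Zygmund type lower bound -/
theorem prob_Sx (h : SheetLaw P B) {N : ℕ} (hN : 0 < N) (M : ℕ) :
    (1 / 10 : ℝ) ≤ P.real {ω | Sx P B N M ω ≠ 0} := by
  have hN' : (0 : ℝ) < N := by exact_mod_cast hN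
  set n : ℝ := ((N ^ 2 : ℕ) : ℝ) with hn
  have hn' : (0 : ℝ) < n := by rw [hn]; positivity
  have hnS : Nice P (Sx P B N M) := Nice.sum _ fun r _ => nice_Pi h N M r
  set A : Set Ω := {ω | Sx P B N M ω ≠ 0} with hA
  have hAm : NullMeasurableSet A P := by
    have : A = (Sx P B N M) ⁻¹' {0}ᶜ := rfl
    rw [this]
    exact hnS.1.nullMeasurableSet_preimage (measurableSet_singleton (0 : ℝ)).compl
  have hind : Integrable (A.indicator (fun _ => (1 : ℝ))) P :=
    (integrable_const (1 : ℝ)).indicator₀ hAm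
  have h1 : 0 ≤ ∫ ω, (Sx P B N M ω ^ 2 - (20 * n) * Sx P B N M ω +
      (100 * n ^ 2) * A.indicator (fun _ => (1 : ℝ)) ω) ∂P := by
    apply integral_nonneg
    intro ω
    by_cases hω : ω ∈ A
    · simp only [Pi.zero_apply, Set.indicator_of_mem hω]
      have : Sx P B N M ω ^ 2 - (20 * n) * Sx P B N M ω + (100 * n ^ 2) * 1 =
        (Sx P B N M ω - 10 * n) ^ 2 := by ring
      rw [this]; positivity
    · have h0 : Sx P B N M ω = 0 := by
        by_contra h'; exact hω h'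
      simp only [Pi.zero_apply, Set.indicator_of_notMem hω, h0]
      norm_num
  have hS2 : Integrable (fun ω => Sx P B N M ω ^ 2) P := by
    have := (hnS.mul hnS).integrable
    simpa only [sq] using this
  have hS1 : Integrable (fun ω => (20 * n) * Sx P B N M ω) P := hnS.integrable.const_mul _
  have e1 : ∫ ω, (Sx P B N M ω ^ 2 - (20 * n) * Sx P B N M ω +
      (100 * n ^ 2) * A.indicator (fun _ => (1 : ℝ)) ω) ∂P =
      ∫ ω, Sx P B N M ω ^ 2 ∂P - (20 * n) * ∫ ω, Sx P B N M ω ∂P +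
        (100 * n ^ 2) * P.real A := by
    have hsub : Integrable (fun ω => Sx P B N M ω ^ 2 - (20 * n) * Sx P B N M ω) P := hS2.sub hS1
    rw [integral_add hsub (hind.const_mul _), integral_sub hS2 hS1, integral_const_mul,
      integral_const_mul, integral_indicator₀ hAm]
    simp
  rw [e1, E_Sx h hN M] at h1
  have h2 := E_Sx_sq h hN M
  rw [← hn] at h1 h2
  have h3 : 10 * n ^ 2 ≤ (100 * n ^ 2) * P.real A := by nlinarith
  have h4 : (100 * n ^ 2) * (1 / 10) ≤ (100 * n ^ 2) * P.real A := by linarith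
  exact le_of_mul_le_mul_left h4 (by positivity)

end Pool.Agent.MP_ef552a_pr
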