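import Mathlib
import Pool.Agent.MP_ef552a_pr.Block

namespace Pool.Agent.MP_ef552a_pr

open MeasureTheory ProbabilityTheory Filter Topology Finset
open scoped NNReal ENNReal

variable {Ω : Type} 

/-- approximate double points in each of the first `M` blocks at a common `s` -/
def Hit (B : Ω → ℝ≥0 × ℝ≥0 → Fin 4 → ℝ) (N : ℕ) (ω : Ω) (s : ℝ≥0) : Prop :=
  s ∈ Set.Icc (1 : ℝ≥0) 2 ∧ ∀ m < N, ∃ l < Nm m, ∃ a b : ℝ≥0,
    a ∈ Set.Icc (tau (Nat.pair m l)) (2 * tau (Nat.pair m l)) ∧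
    b ∈ Set.Icc (3 * tau (Nat.pair m l)) (4 * tau (Nat.pair m l)) ∧
    ∀ κ, |B ω (s, b) κ - B ω (s, a) κ| ≤ (N : ℝ)⁻¹

theorem hit_of_Sx [MeasurableSpace Ω] {P : Measure Ω} {B : Ω → ℝ≥0 × ℝ≥0 → Fin 4 → ℝ} {N : ℕ}
    {ω : Ω} (h : Sx P B N N ω ≠ 0) : ∃ s, Hit B N ω s := by
  obtain ⟨r, _, hr⟩ := Finset.exists_ne_zero_of_sum_ne_zero h
  refine ⟨1 + (r : ℕ) / ((N ^ 2 : ℕ) : ℝ≥0), ?_, ?_⟩
  · have h1 := pt_s_ge (N := N) 0 (r, (r, r))
    have h2 := pt_s_lt (N := N) 0 (r, (r, r))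
    constructor
    · rw [← NNReal.coe_le_coe]; exact h1
    · rw [← NNReal.coe_le_coe]; exact h2.le
  · intro m hm
    unfold Pi at hr
    have h1 := Finset.prod_ne_zero_iff.mp hr ⟨m, hm⟩ (Finset.mem_univ _)
    have h2 : X B N m r ω ≠ 0 := right_ne_zero_of_mul h1
    rw [X_eq] at h2
    obtain ⟨l, hl, h3⟩ := Finset.exists_ne_zero_of_sum_ne_zero h2
    obtain ⟨q, _, h4⟩ := Finset.exists_ne_zero_of_sum_ne_zero h3
    refine ⟨l, Finset.mem_range.mp hl, (pt N (Nat.pair m l) (r, q)).2.1,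
      (pt N (Nat.pair m l) (r, q)).2.2, ?_, ?_, ?_⟩
    · constructor
      · rw [← NNReal.coe_le_coe]; exact pt_a_ge _ _
      · rw [← NNReal.coe_le_coe]; push_cast; exact (pt_a_lt _ _).le
    · constructor
      · rw [← NNReal.coe_le_coe]; push_cast; exact pt_b_ge _ _
      · rw [← NNReal.coe_le_coe]; push_cast; exact (pt_b_lt _ _).le
    · intro κ
      have h5 := Finset.prod_ne_zero_iff.mp h4 κ (Finset.mem_univ _)
      have h6 := phi_ne_zero h5
      have h7 : dl N (Nat.pair m l) ≤ (N : ℝ)⁻¹ := by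
        unfold dl
        rw [div_eq_mul_inv]
        have : ((2 : ℝ)⁻¹) ^ (Nat.pair m l) ≤ 1 := pow_le_one₀ (by norm_num) (by norm_num)
        calc _ ≤ 1 * (N : ℝ)⁻¹ := mul_le_mul_of_nonneg_right this (by positivity)
          _ = _ := one_mul _
      exact h6.le.trans h7

/-- compactness: infinitely many hits give a common `s` with a double point in every block -/
theorem exists_common {B : Ω → ℝ≥0 × ℝ≥0 → Fin 4 → ℝ} {ω : Ω} (hc : Continuous (B ω))
    (hfreq : ∃ᶠ N in atTop, ∃ s, Hit B N ω s) :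
    ∃ s : ℝ≥0, 0 < s ∧ ∀ m : ℕ, ∃ l, ∃ a b : ℝ≥0,
      a ∈ Set.Icc (tau (Nat.pair m l)) (2 * tau (Nat.pair m l)) ∧
      b ∈ Set.Icc (3 * tau (Nat.pair m l)) (4 * tau (Nat.pair m l)) ∧
      B ω (s, a) = B ω (s, b) := by
  obtain ⟨φ, hφ, hhit⟩ := extraction_of_frequently_atTop hfreq
  choose s hs using hhit
  obtain ⟨s₀, hs₀, ψ, hψ, hlim⟩ := (isCompact_Icc (a := (1 : ℝ≥0)) (b := 2)).tendsto_subseq
    (fun n => (hs n).1)
  refine ⟨s₀, lt_of_lt_of_le one_pos hs₀.1, fun m => ?_⟩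
  -- shift the sequence so that `m < φ (ψ n)`
  have hge : ∀ n, m < φ (ψ (n + (m + 1))) := by
    intro n
    have h1 : n + (m + 1) ≤ ψ (n + (m + 1)) := hψ.id_le _
    have h2 : ψ (n + (m + 1)) ≤ φ (ψ (n + (m + 1))) := hφ.id_le _
    omega
  have hex := fun n => (hs (ψ (n + (m + 1)))).2 m (hge n)
  choose l hl a b ha hb hB using hex
  let K : Set (ℕ × ℝ≥0 × ℝ≥0) := (↑(range (Nm m)) : Set ℕ) ×ˢ (Set.Icc 0 4 ×ˢ Set.Icc 0 4)
  have hK : IsCompact K := (Finset.finite_toSet _).isCompact.prod (isCompact_Icc.prod isCompact_Icc)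
  have htau : ∀ j, tau j ≤ 1 := fun j => pow_le_one₀ (by positivity) (by
    rw [← NNReal.coe_le_coe]; push_cast; norm_num)
  have hmem : ∀ n, (l n, a n, b n) ∈ K := by
    intro n
    refine ⟨?_, ⟨by positivity, ?_⟩, ⟨by positivity, ?_⟩⟩
    · simpa using hl n
    · refine (ha n).2.trans ?_
      calc 2 * tau (Nat.pair m (l n)) ≤ 2 * 1 := by gcongr; exact htau _
        _ ≤ 4 := by norm_num
    · refine (hb n).2.trans ?_
      calc 4 * tau (Nat.pair m (l n)) ≤ 4 * 1 := by gcongr; exact htau _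
        _ = 4 := by norm_num
  obtain ⟨⟨l₀, a₀, b₀⟩, _, χ, hχ, hlim2⟩ := hK.tendsto_subseq hmem
  have hl₀ : Tendsto (fun n => l (χ n)) atTop (𝓝 l₀) :=
    (continuous_fst.tendsto _).comp hlim2
  have ha₀ : Tendsto (fun n => a (χ n)) atTop (𝓝 a₀) :=
    ((continuous_fst.comp continuous_snd).tendsto _).comp hlim2
  have hb₀ : Tendsto (fun n => b (χ n)) atTop (𝓝 b₀) :=
    ((continuous_snd.comp continuous_snd).tendsto _).comp hlim2
  have hlev : ∀ᶠ n in atTop, l (χ n) = l₀ := by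
    rw [nhds_discrete] at hl₀
    exact tendsto_pure.mp hl₀
  refine ⟨l₀, a₀, b₀, ?_, ?_, ?_⟩
  · refine isClosed_Icc.mem_of_tendsto ha₀ ?_
    filter_upwards [hlev] with n hn
    have := ha (χ n)
    rwa [hn] at this
  · refine isClosed_Icc.mem_of_tendsto hb₀ ?_
    filter_upwards [hlev] with n hn
    have := hb (χ n)
    rwa [hn] at this
  · funext κ
    -- limit of the increments
    have hsub : Tendsto (fun n => s (ψ (χ n + (m + 1)))) atTop (𝓝 s₀) := by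
      have h1 : Tendsto (fun n => χ n + (m + 1)) atTop atTop :=
        tendsto_atTop_mono (fun n => Nat.le_add_right _ _) hχ.tendsto_atTop
      exact hlim.comp h1
    have hκ : Continuous (fun p : ℝ≥0 × ℝ≥0 => B ω p κ) := (continuous_apply κ).comp hc
    have t1 : Tendsto (fun n => B ω (s (ψ (χ n + (m + 1))), b (χ n)) κ) atTop
        (𝓝 (B ω (s₀, b₀) κ)) := (hκ.tendsto (s₀, b₀)).comp (hsub.prodMk_nhds hb₀)
    have t2 : Tendsto (fun n => B ω (s (ψ (χ n + (m + 1))), a (χ n)) κ) atTop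
        (𝓝 (B ω (s₀, a₀) κ)) := (hκ.tendsto (s₀, a₀)).comp (hsub.prodMk_nhds ha₀)
    have t3 : Tendsto (fun n => |B ω (s (ψ (χ n + (m + 1))), b (χ n)) κ -
        B ω (s (ψ (χ n + (m + 1))), a (χ n)) κ|) atTop
        (𝓝 |B ω (s₀, b₀) κ - B ω (s₀, a₀) κ|) := (t1.sub t2).abs
    have t4 : Tendsto (fun n => ((φ (ψ (χ n + (m + 1))) : ℕ) : ℝ)⁻¹) atTop (𝓝 0) := by
      have h1 : Tendsto (fun n => φ (ψ (χ n + (m + 1)))) atTop atTop :=
        hφ.tendsto_atTop.comp (hψ.tendsto_atTop.comp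
          (tendsto_atTop_mono (fun n => Nat.le_add_right _ _) hχ.tendsto_atTop))
      exact tendsto_inv_atTop_zero.comp (tendsto_natCast_atTop_atTop.comp h1)
    have h5 : |B ω (s₀, b₀) κ - B ω (s₀, a₀) κ| ≤ 0 :=
      le_of_tendsto_of_tendsto' t3 t4 (fun n => hB (χ n) κ)
    have h6 := abs_nonpos_iff.mp h5
    linarith

/-- hence the set of double-point pairs of the slice at `s` is infinite -/
theorem infinite_pairs {B : Ω → ℝ≥0 × ℝ≥0 → Fin 4 → ℝ} {ω : Ω} (hc : Continuous (B ω))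
    (hfreq : ∃ᶠ N in atTop, ∃ s, Hit B N ω s) :
    ∃ s : ℝ≥0, 0 < s ∧ {q : ℝ≥0 × ℝ≥0 | q.1 ≠ q.2 ∧ B ω (s, q.1) = B ω (s, q.2)}.Infinite := by
  obtain ⟨s, hs, hall⟩ := exists_common hc hfreq
  refine ⟨s, hs, ?_⟩
  choose l a b ha hb hB using hall
  refine Set.infinite_of_injective_forall_mem (f := fun m => (a m, b m)) ?_ ?_
  · intro m m' hmm
    have h1 : a m = a m' := congrArg Prod.fst hmm
    by_contra hne
    wlog hlt : Nat.pair m (l m) < Nat.pair m' (l m') generalizing m m'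
    · refine this hmm.symm h1.symm (fun h => hne h.symm) ?_
      refine lt_of_le_of_ne (not_lt.mp hlt) ?_
      intro h2
      rw [Nat.pair_eq_pair] at h2
      exact hne h2.1.symm
    have h2 := tau_lt hlt
    have h3 := (ha m).1
    have h4 := (ha m').2
    have h5 := tau_pos (Nat.pair m' (l m'))
    rw [← h1] at h4
    have h6 : 4 * tau (Nat.pair m' (l m')) ≤ 2 * tau (Nat.pair m' (l m')) := h2.trans (h3.trans h4)
    have h7 : (4 : ℝ≥0) ≤ 2 := le_of_mul_le_mul_right h6 h5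
    norm_num at h7
  · intro m
    refine ⟨?_, hB m⟩
    intro h1
    have h1' : a m = b m := h1
    have h4 := (ha m).2
    have h3 := (hb m).1
    have h5 := tau_pos (Nat.pair m (l m))
    rw [← h1'] at h3
    have h6 := h3.trans h4
    have h7 : (3 : ℝ≥0) ≤ 2 := le_of_mul_le_mul_right h6 h5
    norm_num at h7

theorem main [MeasurableSpace Ω] {P : Measure Ω} [IsProbabilityMeasure P]
    {B : Ω → ℝ≥0 × ℝ≥0 → Fin 4 → ℝ} (hc : ∀ ω, Continuous (B ω)) (hlaw : SheetLaw P B) :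
    ¬ ∃ N : Set Ω, P N = 0 ∧ ∀ ω ∉ N, ∀ s : ℝ≥0, 0 < s →
        {q : ℝ≥0 × ℝ≥0 | q.1 ≠ q.2 ∧ B ω (s, q.1) = B ω (s, q.2)}.Finite := by
  rintro ⟨N₀, hN₀, hfin⟩
  let A : ℕ → Set Ω := fun N => {ω | Sx P B N N ω ≠ 0}
  have hAm : ∀ N, NullMeasurableSet (A N) P := by
    intro N
    have hnS : Nice P (Sx P B N N) := Nice.sum _ fun r _ => nice_Pi hlaw N N r
    have : A N = (Sx P B N N) ⁻¹' {0}ᶜ := rfl
    rw [this]
    exact hnS.1.nullMeasurableSet_preimage (measurableSet_singleton (0 : ℝ)).compl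
  let U : ℕ → Set Ω := fun K => ⋃ N ∈ Set.Ici (K + 1), A N
  have hUm : ∀ K, NullMeasurableSet (U K) P := fun K =>
    NullMeasurableSet.biUnion (Set.to_countable _) fun N _ => hAm N
  have hanti : Antitone U := by
    intro K K' hKK'
    refine Set.biUnion_subset_biUnion_left ?_
    intro N hN
    exact le_trans (Nat.succ_le_succ hKK') hN
  have hU : ∀ K, ENNReal.ofReal (1 / 10) ≤ P (U K) := by
    intro K
    have h1 := prob_Sx hlaw (N := K + 1) (Nat.succ_pos K) (K + 1)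
    have h2 : ENNReal.ofReal (1 / 10) ≤ P (A (K + 1)) := by
      rw [ENNReal.ofReal_le_iff_le_toReal (measure_ne_top _ _)]
      exact h1
    refine h2.trans (measure_mono ?_)
    exact Set.subset_biUnion_of_mem (u := fun N => A N) (Set.mem_Ici.mpr le_rfl)
  have hL := tendsto_measure_iInter_atTop hUm hanti ⟨0, measure_ne_top _ _⟩
  have hL2 : ENNReal.ofReal (1 / 10) ≤ P (⋂ K, U K) := ge_of_tendsto' hL hU
  have hsub : (⋂ K, U K) ⊆ N₀ := by
    intro ω hω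
    by_contra hωN
    have hfreq : ∃ᶠ N in atTop, ∃ s, Hit B N ω s := by
      rw [frequently_atTop]
      intro K
      have h1 := Set.mem_iInter.mp hω K
      obtain ⟨N, hN, hNA⟩ := Set.mem_iUnion₂.mp h1
      exact ⟨N, (Nat.le_succ K).trans hN, hit_of_Sx hNA⟩
    obtain ⟨s, hs, hinf⟩ := infinite_pairs (hc ω) hfreq
    exact hinf (hfin ω hωN s hs)
  have h3 := measure_mono (μ := P) hsub
  rw [hN₀] at h3
  have h4 : ENNReal.ofReal (1 / 10) ≤ 0 := hL2.trans h3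
  have h5 : (0 : ℝ≥0∞) < ENNReal.ofReal (1 / 10) := by
    rw [ENNReal.ofReal_pos]; norm_num
  exact absurd h4 (not_le.mpr h5)

end Pool.Agent.MP_ef552a_pr
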