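import Mathlib

namespace Pool.Agent.MP_ef552a_pr

open MeasureTheory ProbabilityTheory Filter Topology
open scoped NNReal ENNReal

/-- The law of a finite linear combination of i.i.d. standard Gaussians. -/
theorem map_sum_gaussian {ι : Type*} (A : Finset ι) (x : ι → ℝ) :
    (Measure.infinitePi (fun _ : ι => gaussianReal 0 1)).map (fun ω => ∑ α ∈ A, x α * ω α) =
      gaussianReal 0 (∑ α ∈ A, (x α ^ 2)).toNNReal := by
  classical
  have hind : iIndepFun (fun (i : ι) (ω : ι → ℝ) => x i * ω i)
      (Measure.infinitePi (fun _ : ι => gaussianReal 0 1)) :=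
    iIndepFun_infinitePi (P := fun _ : ι => gaussianReal 0 1) (X := fun i y => x i * y)
      (fun i => by fun_prop)
  induction A using Finset.induction_on with
  | empty =>
    simp only [Finset.sum_empty, Real.toNNReal_zero, gaussianReal_zero_var]
    rw [Measure.map_const]
    simp
  | insert i s hi ih =>
    simp only [Finset.sum_insert hi]
    have h1 : (Measure.infinitePi (fun _ : ι => gaussianReal 0 1)).map (fun ω => x i * ω i) =
        gaussianReal 0 (x i ^ 2).toNNReal := by
      have : (fun ω : ι → ℝ => x i * ω i) = (fun y => x i * y) ∘ (fun ω => ω i) := rfl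
      rw [this, ← Measure.map_map (by fun_prop) (by fun_prop), Measure.infinitePi_map_eval,
        gaussianReal_map_const_mul]
      congr 1
      · simp
      · ext
        simp [Real.coe_toNNReal _ (sq_nonneg (x i))]
    have h2 : IndepFun (fun ω : ι → ℝ => x i * ω i) (fun ω => ∑ α ∈ s, x α * ω α)
        (Measure.infinitePi (fun _ : ι => gaussianReal 0 1)) := by
      have := hind.indepFun_finsetSum_of_notMem (fun i => by fun_prop) hi
      convert this.symm using 1
      ext ω
      simp
    have h3 := gaussianReal_add_gaussianReal_of_indepFun h2 h1 ih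
    rw [add_zero, ← Real.toNNReal_add (sq_nonneg _) (Finset.sum_nonneg fun _ _ => sq_nonneg _)] at h3
    exact h3

/-- An almost sure limit of centred Gaussian variables with converging variances is Gaussian. -/
theorem gaussian_limit {Ω : Type*} [MeasurableSpace Ω] {P : Measure Ω} [IsProbabilityMeasure P]
    {X : ℕ → Ω → ℝ} {Y : Ω → ℝ} (hX : ∀ n, Measurable (X n)) {v : ℕ → ℝ} {w : ℝ}
    (hv : ∀ n, 0 ≤ v n)
    (hlaw : ∀ n, P.map (X n) = gaussianReal 0 (v n).toNNReal)
    (hlim : ∀ᵐ ω ∂P, Tendsto (fun n => X n ω) atTop (𝓝 (Y ω)))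
    (hvlim : Tendsto v atTop (𝓝 w)) :
    P.map Y = gaussianReal 0 w.toNNReal := by
  have hY : AEMeasurable Y P := aemeasurable_of_tendsto_metrizable_ae atTop
    (fun n => (hX n).aemeasurable) hlim
  have hw : 0 ≤ w := ge_of_tendsto' hvlim hv
  have : IsProbabilityMeasure (P.map Y) := Measure.isProbabilityMeasure_map hY
  apply Measure.ext_of_charFun
  ext t
  have h1 : ∀ n, charFun (P.map (X n)) t = Complex.exp (-(((v n * t ^ 2 / 2 : ℝ)) : ℂ)) := by
    intro n
    rw [hlaw n, charFun_gaussianReal, Real.coe_toNNReal _ (hv n)]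
    congr 1
    push_cast
    ring
  have h2 : charFun (gaussianReal 0 w.toNNReal) t = Complex.exp (-(((w * t ^ 2 / 2 : ℝ)) : ℂ)) := by
    rw [charFun_gaussianReal, Real.coe_toNNReal _ hw]
    congr 1
    push_cast
    ring
  have h3 : Tendsto (fun n => charFun (P.map (X n)) t) atTop (𝓝 (charFun (P.map Y) t)) := by
    simp only [charFun_apply_real]
    have e1 : ∀ n, ∫ x, Complex.exp (t * x * Complex.I) ∂(P.map (X n)) =
        ∫ ω, Complex.exp (t * X n ω * Complex.I) ∂P := by
      intro n
      rw [integral_map (hX n).aemeasurable]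
      exact Continuous.aestronglyMeasurable (by fun_prop)
    have e2 : ∫ x, Complex.exp (t * x * Complex.I) ∂(P.map Y) =
        ∫ ω, Complex.exp (t * Y ω * Complex.I) ∂P := by
      rw [integral_map hY]
      exact Continuous.aestronglyMeasurable (by fun_prop)
    simp only [e1, e2]
    refine tendsto_integral_of_dominated_convergence (fun _ => (1 : ℝ)) ?_ ?_ ?_ ?_
    · intro n
      have := hX n
      exact Measurable.aestronglyMeasurable (by fun_prop)
    · exact integrable_const _
    · intro n
      refine Filter.Eventually.of_forall fun ω => ?_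
      have : (t : ℂ) * (X n ω : ℂ) * Complex.I = ((t * X n ω : ℝ) : ℂ) * Complex.I := by
        push_cast; ring
      rw [this, Complex.norm_exp_ofReal_mul_I]
    · filter_upwards [hlim] with ω hω
      have hc : Continuous (fun y : ℝ => Complex.exp (t * y * Complex.I)) := by fun_prop
      exact (hc.tendsto (Y ω)).comp hω
  have h4 : Tendsto (fun n => charFun (P.map (X n)) t) atTop
      (𝓝 (charFun (gaussianReal 0 w.toNNReal) t)) := by
    simp only [h1, h2]
    have hc : Continuous (fun y : ℝ => Complex.exp (-(((y * t ^ 2 / 2 : ℝ)) : ℂ))) := by fun_prop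
    exact (hc.tendsto w).comp hvlim
  exact tendsto_nhds_unique h3 h4

end Pool.Agent.MP_ef552a_pr
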