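import Mathlib

namespace Pool.Agent.MP_ef552a_pr

open Finset

/-- clamp to `[0,1]` -/
noncomputable def cl (x : ℝ) : ℝ := max 0 (min x 1)

/-- tent function -/
noncomputable def tent (x : ℝ) : ℝ := (cl (2 * x) - cl (2 * x - 1)) / 2

theorem cl_nonneg (x : ℝ) : 0 ≤ cl x := le_max_left _ _
theorem cl_le_one (x : ℝ) : cl x ≤ 1 := max_le zero_le_one (min_le_right _ _)
theorem cl_of_nonpos {x : ℝ} (h : x ≤ 0) : cl x = 0 := by
  unfold cl; rw [max_eq_left]; exact (min_le_left _ _).trans h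
theorem cl_of_one_le {x : ℝ} (h : 1 ≤ x) : cl x = 1 := by
  unfold cl; rw [min_eq_right h]; norm_num
theorem cl_of_mem {x : ℝ} (h0 : 0 ≤ x) (h1 : x ≤ 1) : cl x = x := by
  unfold cl; rw [min_eq_left h1, max_eq_right h0]
theorem cl_mono {x y : ℝ} (h : x ≤ y) : cl x ≤ cl y :=
  max_le_max_left _ (min_le_min_right _ h)
@[fun_prop] theorem continuous_cl : Continuous cl := by unfold cl; fun_prop
@[fun_prop] theorem continuous_tent : Continuous tent := by unfold tent; fun_prop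

theorem cl_split (x : ℝ) : cl x = (cl (2 * x) + cl (2 * x - 1)) / 2 := by
  rcases le_total x 0 with h | h
  · rw [cl_of_nonpos h, cl_of_nonpos (by linarith), cl_of_nonpos (by linarith)]; norm_num
  rcases le_total x (1 / 2) with h' | h'
  · rw [cl_of_mem h (by linarith), cl_of_mem (by linarith) (by linarith),
      cl_of_nonpos (by linarith)]; ring
  rcases le_total x 1 with h'' | h''
  · rw [cl_of_mem h h'', cl_of_one_le (by linarith), cl_of_mem (by linarith) (by linarith)]; ring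
  · rw [cl_of_one_le h'', cl_of_one_le (by linarith), cl_of_one_le (by linarith)]; norm_num

theorem tent_nonneg (x : ℝ) : 0 ≤ tent x := by
  unfold tent
  have := cl_mono (show 2 * x - 1 ≤ 2 * x by linarith)
  linarith

/-- dyadic covariance approximations -/
noncomputable def Adyad (J : ℕ) (u u' : ℝ) : ℝ :=
  (2 ^ J : ℝ)⁻¹ * ∑ k ∈ range (2 ^ J), cl (2 ^ J * u - k) * cl (2 ^ J * u' - k)

theorem sum_range_two_mul (f : ℕ → ℝ) (n : ℕ) :
    ∑ k ∈ range (2 * n), f k = ∑ k ∈ range n, (f (2 * k) + f (2 * k + 1)) := by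
  induction n with
  | zero => simp
  | succ n ih =>
    rw [show 2 * (n + 1) = 2 * n + 1 + 1 by ring, sum_range_succ, sum_range_succ, ih,
      sum_range_succ]
    ring

theorem Adyad_succ (J : ℕ) (u u' : ℝ) :
    Adyad (J + 1) u u' = Adyad J u u' + (2 ^ J : ℝ)⁻¹ *
      ∑ k ∈ range (2 ^ J), tent (2 ^ J * u - k) * tent (2 ^ J * u' - k) := by
  unfold Adyad
  rw [← mul_add, ← sum_add_distrib, show (2 : ℕ) ^ (J + 1) = 2 * 2 ^ J by ring,
    sum_range_two_mul, show ((2 : ℝ) ^ (J + 1))⁻¹ = (2 ^ J : ℝ)⁻¹ * (1 / 2) by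
      rw [pow_succ]; field_simp]
  rw [mul_assoc]
  congr 1
  rw [mul_sum]
  refine sum_congr rfl fun k _ => ?_
  rw [cl_split (2 ^ J * u - k), cl_split (2 ^ J * u' - k)]
  unfold tent
  have e1 : (2 : ℝ) ^ (J + 1) * u - ((2 * k : ℕ) : ℝ) = 2 * (2 ^ J * u - k) := by
    push_cast; ring
  have e2 : (2 : ℝ) ^ (J + 1) * u - ((2 * k + 1 : ℕ) : ℝ) = 2 * (2 ^ J * u - k) - 1 := by
    push_cast; ring
  have e3 : (2 : ℝ) ^ (J + 1) * u' - ((2 * k : ℕ) : ℝ) = 2 * (2 ^ J * u' - k) := by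
    push_cast; ring
  have e4 : (2 : ℝ) ^ (J + 1) * u' - ((2 * k + 1 : ℕ) : ℝ) = 2 * (2 ^ J * u' - k) - 1 := by
    push_cast; ring
  rw [e1, e2, e3, e4]
  ring

/-- Schauder functions on `[0,1]` -/
noncomputable def S (j k : ℕ) (u : ℝ) : ℝ := (√2)⁻¹ ^ j * tent (2 ^ j * u - k)

@[fun_prop] theorem continuous_S (j k : ℕ) : Continuous (S j k) := by unfold S; fun_prop

theorem S_nonneg (j k : ℕ) (u : ℝ) : 0 ≤ S j k u :=
  mul_nonneg (by positivity) (tent_nonneg _)

theorem sqrt_pow (j : ℕ) : (√2)⁻¹ ^ j * (√2)⁻¹ ^ j = (2 ^ j : ℝ)⁻¹ := by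
  rw [← mul_pow, ← mul_inv, Real.mul_self_sqrt (by norm_num), inv_pow]

theorem sum_S_mul_S (J : ℕ) {u u' : ℝ} (hu : 0 ≤ u) (hu1 : u ≤ 1) (hu' : 0 ≤ u') (hu1' : u' ≤ 1) :
    ∑ j ∈ range J, ∑ k ∈ range (2 ^ j), S j k u * S j k u' = Adyad J u u' - u * u' := by
  induction J with
  | zero =>
    simp [Adyad, cl_of_mem hu hu1, cl_of_mem hu' hu1']
  | succ J ih =>
    rw [sum_range_succ, ih, Adyad_succ, mul_sum]
    have : ∀ k, S J k u * S J k u' =
        (2 ^ J : ℝ)⁻¹ * (tent (2 ^ J * u - k) * tent (2 ^ J * u' - k)) := by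
      intro k
      unfold S
      rw [← sqrt_pow]; ring
    simp only [this]
    ring

theorem sum_cl (n : ℕ) {x : ℝ} (hx : 0 ≤ x) (hxn : x ≤ n) : ∑ k ∈ range n, cl (x - k) = x := by
  have h : ∀ m : ℕ, ∑ k ∈ range m, cl (x - k) = min x m := by
    intro m
    induction m with
    | zero => simp [hx]
    | succ m ih =>
      rw [sum_range_succ, ih]
      push_cast
      rcases le_total x m with h | h
      · rw [min_eq_left h, min_eq_left (by linarith), cl_of_nonpos (by linarith)]; ring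
      · rcases le_total x (m + 1) with h' | h'
        · rw [min_eq_right h, min_eq_left h', cl_of_mem (by linarith) (by linarith)]; ring
        · rw [min_eq_right h, min_eq_right h', cl_of_one_le (by linarith)]
  rw [h n, min_eq_left hxn]

theorem Adyad_bound (J : ℕ) {u u' : ℝ} (hu : 0 ≤ u) (huu' : u ≤ u') (hu1' : u' ≤ 1) :
    |Adyad J u u' - u| ≤ (2 ^ J : ℝ)⁻¹ := by
  have h2 : (0 : ℝ) < 2 ^ J := by positivity
  have e0 : ∑ k ∈ range (2 ^ J), cl (2 ^ J * u - k) = 2 ^ J * u := by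
    apply sum_cl _ (by positivity)
    push_cast
    nlinarith
  have e1 : Adyad J u u' - u = - ((2 ^ J : ℝ)⁻¹ *
      ∑ k ∈ range (2 ^ J), cl (2 ^ J * u - k) * (1 - cl (2 ^ J * u' - k))) := by
    simp only [mul_sub, mul_one, sum_sub_distrib]
    rw [e0]
    unfold Adyad
    field_simp
    ring
  rw [e1, abs_neg, abs_mul, abs_of_pos (inv_pos.mpr h2)]
  have h3 : |∑ k ∈ range (2 ^ J), cl (2 ^ J * u - k) * (1 - cl (2 ^ J * u' - k))| ≤ 1 := by
    have hterm : ∀ k : ℕ, 0 ≤ cl (2 ^ J * u - k) * (1 - cl (2 ^ J * u' - k)) := fun k =>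
      mul_nonneg (cl_nonneg _) (by linarith [cl_le_one (2 ^ J * u' - k)])
    rw [abs_of_nonneg (sum_nonneg fun k _ => hterm k)]
    set y := (2 : ℝ) ^ J * u' with hy
    have hle : ∀ k : ℕ, cl (2 ^ J * u - k) * (1 - cl (y - k)) ≤
        cl (y - k) - cl (y - (k + 1 : ℕ)) := by
      intro k
      have m1 : cl (2 ^ J * u - k) ≤ cl (y - k) := cl_mono (by rw [hy]; nlinarith)
      have m2 : cl (2 ^ J * u - k) * (1 - cl (y - k)) ≤ cl (y - k) * (1 - cl (y - k)) :=
        mul_le_mul_of_nonneg_right m1 (by linarith [cl_le_one (y - k)])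
      refine m2.trans ?_
      rcases le_total (y - k) 1 with h | h
      · rw [cl_of_nonpos (show y - ((k + 1 : ℕ) : ℝ) ≤ 0 by push_cast; linarith)]
        nlinarith [cl_nonneg (y - k), cl_le_one (y - k)]
      · rw [cl_of_one_le h]
        linarith [cl_le_one (y - (k + 1 : ℕ))]
    refine (sum_le_sum fun k _ => hle k).trans ?_
    rw [sum_range_sub' (fun k : ℕ => cl (y - (k : ℝ)))]
    have := cl_le_one (y - ((0 : ℕ) : ℝ))
    have := cl_nonneg (y - ((2 ^ J : ℕ) : ℝ))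
    linarith
  calc (2 ^ J : ℝ)⁻¹ * _ ≤ (2 ^ J : ℝ)⁻¹ * 1 := mul_le_mul_of_nonneg_left h3 (by positivity)
    _ = _ := mul_one _

theorem Adyad_comm (J : ℕ) (u u' : ℝ) : Adyad J u u' = Adyad J u' u := by
  unfold Adyad; simp only [mul_comm]

theorem tendsto_Adyad {u u' : ℝ} (hu : 0 ≤ u) (hu1 : u ≤ 1) (hu' : 0 ≤ u') (hu1' : u' ≤ 1) :
    Filter.Tendsto (fun J => Adyad J u u') Filter.atTop (nhds (min u u')) := by
  have h2 : Filter.Tendsto (fun J : ℕ => ((2 : ℝ) ^ J)⁻¹) Filter.atTop (nhds 0) := by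
    have := tendsto_pow_atTop_nhds_zero_of_lt_one (r := (2 : ℝ)⁻¹) (by norm_num) (by norm_num)
    simpa [inv_pow] using this
  rw [tendsto_iff_norm_sub_tendsto_zero]
  refine squeeze_zero (fun _ => norm_nonneg _) (fun J => ?_) h2
  rw [Real.norm_eq_abs]
  rcases le_total u u' with h | h
  · rw [min_eq_left h]; exact Adyad_bound J hu h hu1'
  · rw [min_eq_right h, Adyad_comm]; exact Adyad_bound J hu' h hu1

theorem tendsto_sum_S {u u' : ℝ} (hu : 0 ≤ u) (hu1 : u ≤ 1) (hu' : 0 ≤ u') (hu1' : u' ≤ 1) :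
    Filter.Tendsto (fun J => ∑ j ∈ range J, ∑ k ∈ range (2 ^ j), S j k u * S j k u') Filter.atTop
      (nhds (min u u' - u * u')) := by
  simp only [fun J => sum_S_mul_S J hu hu1 hu' hu1']
  exact (tendsto_Adyad hu hu1 hu' hu1').sub_const _

/-- at each level the Schauder functions sum to at most `(√2)⁻¹ ^ j` -/
theorem sum_S_le (j : ℕ) (u : ℝ) : ∑ k ∈ range (2 ^ j), S j k u ≤ (√2)⁻¹ ^ j := by
  unfold S
  rw [← mul_sum]
  have h : ∑ k ∈ range (2 ^ j), tent (2 ^ j * u - k) ≤ 1 := by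
    have h1 : ∀ k : ℕ, tent (2 ^ j * u - k) ≤
        cl (2 ^ j * u - k + 1) - cl (2 ^ j * u - (k + 1 : ℕ) + 1) := by
      intro k
      unfold tent
      set x := (2 : ℝ) ^ j * u - k
      have e : (2 : ℝ) ^ j * u - ((k + 1 : ℕ) : ℝ) + 1 = x := by push_cast; ring
      rw [e]
      rcases le_total x 0 with h | h
      · rw [cl_of_nonpos h, cl_of_nonpos (show 2 * x ≤ 0 by linarith)]
        linarith [cl_nonneg (2 * x - 1), cl_nonneg (x + 1)]
      · rw [cl_of_one_le (show 1 ≤ x + 1 by linarith)]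
        have h3 := cl_split x
        have := cl_le_one (2 * x)
        linarith [cl_nonneg (2 * x - 1)]
    refine (sum_le_sum fun k _ => h1 k).trans ?_
    rw [sum_range_sub' (fun k : ℕ => cl (2 ^ j * u - (k : ℝ) + 1))]
    have := cl_le_one (2 ^ j * u - ((0 : ℕ) : ℝ) + 1)
    have := cl_nonneg (2 ^ j * u - ((2 ^ j : ℕ) : ℝ) + 1)
    linarith
  calc (√2)⁻¹ ^ j * _ ≤ (√2)⁻¹ ^ j * 1 := mul_le_mul_of_nonneg_left h (by positivity)
    _ = _ := mul_one _

end Pool.Agent.MP_ef552a_pr
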