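import Mathlib
import Pool.Agent.MP_ef552a_pr.Schauder
import Pool.Agent.MP_ef552a_pr.GaussSum

namespace Pool.Agent.MP_ef552a_pr

open MeasureTheory ProbabilityTheory Filter Topology Finset
open scoped NNReal ENNReal

variable {d : ℕ}

/-- index set of the i.i.d. Gaussians: coordinate, (level, position), (level, position) -/
abbrev Idx (d : ℕ) : Type := Fin d × (ℕ × ℕ) × (ℕ × ℕ)

/-- sample space -/
abbrev Om (d : ℕ) : Type := Idx d → ℝ

/-- the probability measure -/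
noncomputable abbrev Pm (d : ℕ) : Measure (Om d) :=
  Measure.infinitePi (fun _ : Idx d => gaussianReal 0 1)

/-- the level-`(j, j')` term of the series -/
noncomputable def F (κ : Fin d) (j j' : ℕ) (u v : ℝ) (ω : Om d) : ℝ :=
  ∑ k ∈ range (2 ^ j), ∑ k' ∈ range (2 ^ j'), ω (κ, (j, k), (j', k')) * (S j k u * S j' k' v)

/-- sum of fourth powers at level `(j, j')` -/
noncomputable def R4 (κ : Fin d) (j j' : ℕ) (ω : Om d) : ℝ :=
  ∑ k ∈ range (2 ^ j), ∑ k' ∈ range (2 ^ j'), ω (κ, (j, k), (j', k')) ^ 4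

/-- bound for the level-`(j, j')` term -/
noncomputable def M (κ : Fin d) (j j' : ℕ) (ω : Om d) : ℝ :=
  (√2)⁻¹ ^ j * (√2)⁻¹ ^ j' * ((5 / 4) ^ (j + j') + (((5 / 4) ^ (j + j')) ^ 3)⁻¹ * R4 κ j j' ω)

theorem R4_nonneg (κ : Fin d) (j j' : ℕ) (ω : Om d) : 0 ≤ R4 κ j j' ω :=
  sum_nonneg fun _ _ => sum_nonneg fun _ _ => by positivity

theorem M_nonneg (κ : Fin d) (j j' : ℕ) (ω : Om d) : 0 ≤ M κ j j' ω := by
  have := R4_nonneg κ j j' ω
  unfold M; positivity

theorem abs_le_young {l x : ℝ} (hl : 0 < l) : |x| ≤ l + (l ^ 3)⁻¹ * x ^ 4 := by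
  rcases le_total |x| l with h | h
  · have : 0 ≤ (l ^ 3)⁻¹ * x ^ 4 := by positivity
    linarith
  · have h4 : x ^ 4 = |x| ^ 4 := by
      rw [← abs_pow, abs_of_nonneg (by positivity)]
    have h3 : l ^ 3 ≤ |x| ^ 3 := pow_le_pow_left₀ hl.le h 3
    have h5 : |x| ≤ (l ^ 3)⁻¹ * x ^ 4 := by
      rw [h4, inv_mul_eq_div, le_div_iff₀ (by positivity)]
      have : |x| * l ^ 3 ≤ |x| * |x| ^ 3 := mul_le_mul_of_nonneg_left h3 (abs_nonneg x)
      calc |x| * l ^ 3 ≤ |x| * |x| ^ 3 := this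
        _ = |x| ^ 4 := by ring
    linarith

theorem F_bound (κ : Fin d) (j j' : ℕ) (u v : ℝ) (ω : Om d) : |F κ j j' u v ω| ≤ M κ j j' ω := by
  set l : ℝ := (5 / 4) ^ (j + j') with hl
  have hl0 : 0 < l := by positivity
  have h1 : ∀ k ∈ range (2 ^ j), ∀ k' ∈ range (2 ^ j'),
      |ω (κ, (j, k), (j', k'))| ≤ l + (l ^ 3)⁻¹ * R4 κ j j' ω := by
    intro k hk k' hk'
    refine (abs_le_young hl0).trans ?_
    have : ω (κ, (j, k), (j', k')) ^ 4 ≤ R4 κ j j' ω := by
      unfold R4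
      refine le_trans ?_ (single_le_sum (f := fun k => ∑ k' ∈ range (2 ^ j'),
        ω (κ, (j, k), (j', k')) ^ 4) (fun _ _ => sum_nonneg fun _ _ => by positivity) hk)
      exact single_le_sum (f := fun k' => ω (κ, (j, k), (j', k')) ^ 4)
        (fun _ _ => by positivity) hk'
    have h0 : 0 ≤ (l ^ 3)⁻¹ := by positivity
    nlinarith
  unfold F
  calc |∑ k ∈ range (2 ^ j), ∑ k' ∈ range (2 ^ j'), ω (κ, (j, k), (j', k')) * (S j k u * S j' k' v)|
      ≤ ∑ k ∈ range (2 ^ j), ∑ k' ∈ range (2 ^ j'),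
          (l + (l ^ 3)⁻¹ * R4 κ j j' ω) * (S j k u * S j' k' v) := by
        refine (abs_sum_le_sum_abs _ _).trans (sum_le_sum fun k hk => ?_)
        refine (abs_sum_le_sum_abs _ _).trans (sum_le_sum fun k' hk' => ?_)
        rw [abs_mul, abs_of_nonneg (mul_nonneg (S_nonneg _ _ _) (S_nonneg _ _ _))]
        exact mul_le_mul_of_nonneg_right (h1 k hk k' hk')
          (mul_nonneg (S_nonneg _ _ _) (S_nonneg _ _ _))
    _ = (l + (l ^ 3)⁻¹ * R4 κ j j' ω) *
          ((∑ k ∈ range (2 ^ j), S j k u) * ∑ k' ∈ range (2 ^ j'), S j' k' v) := by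
        rw [sum_mul_sum, mul_sum]
        refine sum_congr rfl fun k _ => ?_
        rw [mul_sum]
    _ ≤ (l + (l ^ 3)⁻¹ * R4 κ j j' ω) * ((√2)⁻¹ ^ j * (√2)⁻¹ ^ j') := by
        have := R4_nonneg κ j j' ω
        refine mul_le_mul_of_nonneg_left ?_ (by positivity)
        refine mul_le_mul (sum_S_le _ _) (sum_S_le _ _) ?_ (by positivity)
        exact sum_nonneg fun _ _ => S_nonneg _ _ _
    _ = M κ j j' ω := by unfold M; rw [← hl]; ring

theorem measurable_F (κ : Fin d) (j j' : ℕ) (u v : ℝ) : Measurable (F κ j j' u v) := by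
  unfold F; fun_prop

theorem measurable_R4 (κ : Fin d) (j j' : ℕ) : Measurable (R4 κ j j') := by
  unfold R4; fun_prop

theorem measurable_M (κ : Fin d) (j j' : ℕ) : Measurable (M κ j j') := by
  unfold M
  have := measurable_R4 κ j j'
  fun_prop

theorem continuous_F (κ : Fin d) (j j' : ℕ) (ω : Om d) :
    Continuous (fun p : ℝ × ℝ => F κ j j' p.1 p.2 ω) := by
  unfold F; fun_prop

/-- fourth moment of a standard Gaussian -/
noncomputable def m4 : ℝ≥0∞ := ∫⁻ x, ENNReal.ofReal (x ^ 4) ∂(gaussianReal 0 1)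

theorem m4_lt_top : m4 < ⊤ := by
  have h := memLp_id_gaussianReal (μ := 0) (v := 1) 4
  have h2 := h.integrable_norm_pow (by norm_num : (4 : ℕ) ≠ 0)
  have h3 := h2.lintegral_lt_top
  unfold m4
  convert h3 using 3 with x
  have h4 : (0 : ℝ) ≤ x ^ 4 := by positivity
  rw [id, Real.norm_eq_abs, ← abs_pow, abs_of_nonneg h4]

theorem lintegral_R4 (κ : Fin d) (j j' : ℕ) :
    ∫⁻ ω, ENNReal.ofReal (R4 κ j j' ω) ∂(Pm d) = 2 ^ j * (2 ^ j' * m4) := by
  unfold R4
  have h1 : ∀ α : Idx d, ∫⁻ ω, ENNReal.ofReal (ω α ^ 4) ∂(Pm d) = m4 := by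
    intro α
    unfold m4
    rw [← Measure.infinitePi_map_eval (fun _ : Idx d => gaussianReal 0 1) α,
      lintegral_map (by fun_prop) (by fun_prop)]
  have h2 : ∀ ω : Om d, ENNReal.ofReal (∑ k ∈ range (2 ^ j), ∑ k' ∈ range (2 ^ j'),
      ω (κ, (j, k), (j', k')) ^ 4) = ∑ k ∈ range (2 ^ j), ∑ k' ∈ range (2 ^ j'),
      ENNReal.ofReal (ω (κ, (j, k), (j', k')) ^ 4) := by
    intro ω
    rw [ENNReal.ofReal_sum_of_nonneg (fun _ _ => sum_nonneg fun _ _ => by positivity)]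
    refine sum_congr rfl fun k _ => ?_
    rw [ENNReal.ofReal_sum_of_nonneg (fun _ _ => by positivity)]
  simp only [h2]
  rw [lintegral_finsetSum _ (fun k _ => by fun_prop)]
  have h3 : ∀ k, ∫⁻ ω : Om d, ∑ k' ∈ range (2 ^ j'), ENNReal.ofReal (ω (κ, (j, k), (j', k')) ^ 4)
      ∂(Pm d) = 2 ^ j' * m4 := by
    intro k
    rw [lintegral_finsetSum _ (fun k _ => by fun_prop)]
    simp only [h1]
    simp
  simp only [h3]
  simp

/-- first ratio -/
noncomputable def ra : ℝ := (√2)⁻¹ * (5 / 4)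
/-- second ratio -/
noncomputable def rb : ℝ := (√2)⁻¹ * ((5 / 4) ^ 3)⁻¹ * 2

theorem sqrt2_lb : (1.4 : ℝ) < √2 := by
  rw [Real.lt_sqrt (by norm_num)]; norm_num

theorem ra_nonneg : 0 ≤ ra := by unfold ra; positivity
theorem rb_nonneg : 0 ≤ rb := by unfold rb; positivity
theorem ra_lt_one : ra < 1 := by
  unfold ra
  rw [inv_mul_lt_iff₀ (by positivity)]
  linarith [sqrt2_lb]
theorem rb_lt_one : rb < 1 := by
  unfold rb
  rw [mul_assoc, inv_mul_lt_iff₀ (by positivity)]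
  linarith [sqrt2_lb]

theorem lintegral_M (κ : Fin d) (j j' : ℕ) :
    ∫⁻ ω, ENNReal.ofReal (M κ j j' ω) ∂(Pm d) =
      ENNReal.ofReal (ra ^ j * ra ^ j') + ENNReal.ofReal (rb ^ j * rb ^ j') * m4 := by
  have h1 : ∀ ω, ENNReal.ofReal (M κ j j' ω) = ENNReal.ofReal (ra ^ j * ra ^ j') +
      ENNReal.ofReal ((√2)⁻¹ ^ j * (√2)⁻¹ ^ j' * (((5 / 4) ^ (j + j')) ^ 3)⁻¹) *
        ENNReal.ofReal (R4 κ j j' ω) := by
    intro ω
    rw [← ENNReal.ofReal_mul (by positivity), ← ENNReal.ofReal_add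
      (by have := ra_nonneg; positivity) (by have := R4_nonneg κ j j' ω; positivity)]
    congr 1
    unfold M ra
    ring
  simp only [h1]
  rw [lintegral_add_left (by fun_prop), lintegral_const_mul' _ _ (by simp), lintegral_R4]
  simp only [lintegral_const, measure_univ, mul_one]
  congr 1
  rw [← mul_assoc, ← mul_assoc]
  congr 1
  have h2 : ∀ n : ℕ, (2 : ℝ≥0∞) ^ n = ENNReal.ofReal (2 ^ n) := by
    intro n
    rw [ENNReal.ofReal_pow (by norm_num)]
    simp
  rw [h2, h2, ← ENNReal.ofReal_mul (by positivity), ← ENNReal.ofReal_mul (by positivity)]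
  congr 1
  unfold rb
  rw [mul_pow, mul_pow, mul_pow, mul_pow, pow_add, mul_pow, mul_inv, inv_pow, inv_pow, inv_pow,
    inv_pow, ← pow_mul, ← pow_mul, ← pow_mul, ← pow_mul, mul_comm 3 j, mul_comm 3 j']
  ring

theorem summable_geo {r : ℝ} (h0 : 0 ≤ r) (h1 : r < 1) :
    Summable (fun p : ℕ × ℕ => r ^ p.1 * r ^ p.2) :=
  (summable_geometric_of_lt_one h0 h1).mul_of_nonneg (summable_geometric_of_lt_one h0 h1)
    (fun _ => by positivity) (fun _ => by positivity)

/-- the good event -/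
def Gd (d : ℕ) : Set (Om d) :=
  {ω | ∀ κ : Fin d, ∑' p : ℕ × ℕ, ENNReal.ofReal (M κ p.1 p.2 ω) < ⊤}

theorem measurableSet_Gd : MeasurableSet (Gd d) := by
  unfold Gd
  rw [Set.ofPred_forall]
  refine MeasurableSet.iInter fun κ => ?_
  refine measurableSet_lt ?_ measurable_const
  exact Measurable.tsum fun p => (measurable_M κ p.1 p.2).ennreal_ofReal

theorem ae_Gd : ∀ᵐ ω ∂(Pm d), ω ∈ Gd d := by
  unfold Gd
  simp only [Set.mem_ofPred_eq]
  rw [ae_all_iff]
  intro κ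
  refine ae_lt_top (Measurable.tsum fun p => (measurable_M κ p.1 p.2).ennreal_ofReal) ?_
  rw [lintegral_tsum (f := fun (p : ℕ × ℕ) (ω : Om d) => ENNReal.ofReal (M κ p.1 p.2 ω))
    (fun p => (measurable_M κ p.1 p.2).ennreal_ofReal.aemeasurable)]
  simp only [lintegral_M]
  rw [ENNReal.tsum_add, ENNReal.tsum_mul_right]
  rw [← ENNReal.ofReal_tsum_of_nonneg (fun p => by have := ra_nonneg; positivity)
    (summable_geo ra_nonneg ra_lt_one)]
  rw [← ENNReal.ofReal_tsum_of_nonneg (fun p => by have := rb_nonneg; positivity)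
    (summable_geo rb_nonneg rb_lt_one)]
  exact ENNReal.add_ne_top.mpr ⟨ENNReal.ofReal_ne_top, ENNReal.mul_ne_top ENNReal.ofReal_ne_top
    m4_lt_top.ne⟩

theorem summable_M {ω : Om d} (hω : ω ∈ Gd d) (κ : Fin d) :
    Summable (fun p : ℕ × ℕ => M κ p.1 p.2 ω) := by
  have h := ENNReal.summable_toReal (hω κ).ne
  convert h using 2 with p
  rw [ENNReal.toReal_ofReal (M_nonneg _ _ _ _)]

/-- the tied-down sheet -/
noncomputable def bt (κ : Fin d) (u v : ℝ) (ω : Om d) : ℝ :=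
  ∑' p : ℕ × ℕ, F κ p.1 p.2 u v ω

theorem continuous_bt {ω : Om d} (hω : ω ∈ Gd d) (κ : Fin d) :
    Continuous (fun p : ℝ × ℝ => bt κ p.1 p.2 ω) := by
  unfold bt
  refine continuous_tsum (fun i => continuous_F κ i.1 i.2 ω) (summable_M hω κ) ?_
  intro n x
  exact F_bound _ _ _ _ _ _

theorem tendsto_bt {ω : Om d} (hω : ω ∈ Gd d) (κ : Fin d) (u v : ℝ) :
    Tendsto (fun J => ∑ j ∈ range J, ∑ j' ∈ range J, F κ j j' u v ω) atTop
      (𝓝 (bt κ u v ω)) := by
  have h1 : Summable (fun p : ℕ × ℕ => F κ p.1 p.2 u v ω) :=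
    Summable.of_norm_bounded (summable_M hω κ) (fun p => F_bound _ _ _ _ _ _)
  have h2 := h1.hasSum
  have h3 : Tendsto (fun J : ℕ => (range J) ×ˢ (range J)) atTop atTop := by
    refine tendsto_atTop_finset_of_monotone ?_ ?_
    · intro a b hab
      exact product_subset_product (range_mono hab) (range_mono hab)
    · intro p
      refine ⟨max p.1 p.2 + 1, ?_⟩
      rw [mem_product, mem_range, mem_range]
      constructor
      · have := le_max_left p.1 p.2; omega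
      · have := le_max_right p.1 p.2; omega
  have h4 := h2.comp h3
  unfold bt
  refine h4.congr fun J => ?_
  simp only [Function.comp_apply]
  rw [sum_product]

/-- time change `s ↦ s / (1 + s)` -/
noncomputable def tc (s : ℝ≥0) : ℝ := (s : ℝ) / (1 + s)

theorem tc_nonneg (s : ℝ≥0) : 0 ≤ tc s := by unfold tc; positivity
theorem tc_le_one (s : ℝ≥0) : tc s ≤ 1 := by
  unfold tc
  rw [div_le_one (by positivity)]
  linarith

theorem continuous_tc : Continuous tc := by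
  unfold tc
  refine Continuous.div (by fun_prop) (by fun_prop) fun x => by positivity

theorem tc_cov (s s' : ℝ≥0) :
    (1 + (s : ℝ)) * (1 + s') * (min (tc s) (tc s') - tc s * tc s') = min (s : ℝ) s' := by
  wlog h : s ≤ s' generalizing s s'
  · have := this s' s (le_of_not_ge h)
    rw [min_comm, mul_comm (tc s) (tc s'), mul_comm (1 + (s : ℝ)), this, min_comm]
  have h' : (s : ℝ) ≤ s' := by exact_mod_cast h
  have h1 : tc s ≤ tc s' := by
    unfold tc
    rw [div_le_div_iff₀ (by positivity) (by positivity)]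
    nlinarith
  rw [min_eq_left h1, min_eq_left h']
  unfold tc
  have : (0 : ℝ) < 1 + s := by positivity
  have : (0 : ℝ) < 1 + s' := by positivity
  field_simp
  ring

/-- the Brownian sheet -/
noncomputable def Bs (ω : Om d) (p : ℝ≥0 × ℝ≥0) (κ : Fin d) : ℝ :=
  (Gd d).indicator (fun ω => (1 + (p.1 : ℝ)) * (1 + (p.2 : ℝ)) * bt κ (tc p.1) (tc p.2) ω) ω

theorem continuous_Bs (ω : Om d) : Continuous (Bs ω) := by
  refine continuous_pi fun κ => ?_
  unfold Bs
  by_cases hω : ω ∈ Gd d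
  · have h0 : (fun p : ℝ≥0 × ℝ≥0 => (Gd d).indicator
        (fun ω => (1 + (p.1 : ℝ)) * (1 + (p.2 : ℝ)) * bt κ (tc p.1) (tc p.2) ω) ω) =
        fun p : ℝ≥0 × ℝ≥0 => (1 + (p.1 : ℝ)) * (1 + (p.2 : ℝ)) * bt κ (tc p.1) (tc p.2) ω := by
      funext p
      rw [Set.indicator_of_mem hω]
    rw [h0]
    have h1 : Continuous (fun p : ℝ≥0 × ℝ≥0 => (tc p.1, tc p.2)) :=
      (continuous_tc.comp continuous_fst).prodMk (continuous_tc.comp continuous_snd)
    have h2 := (continuous_bt hω κ).comp h1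
    simp only [Function.comp_def] at h2
    have h3 : Continuous (fun p : ℝ≥0 × ℝ≥0 => (1 + (p.1 : ℝ)) * (1 + (p.2 : ℝ))) := by fun_prop
    exact h3.mul h2
  · have h0 : (fun p : ℝ≥0 × ℝ≥0 => (Gd d).indicator
        (fun ω => (1 + (p.1 : ℝ)) * (1 + (p.2 : ℝ)) * bt κ (tc p.1) (tc p.2) ω) ω) =
        fun _ => 0 := by
      funext p
      rw [Set.indicator_of_notMem hω]
    rw [h0]
    exact continuous_const

end Pool.Agent.MP_ef552a_pr
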