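import Mathlib
import Pool.Agent.MP_ef552a_pr.Sheet

namespace Pool.Agent.MP_ef552a_pr

open MeasureTheory ProbabilityTheory Filter Topology Finset
open scoped NNReal ENNReal

variable {d : ℕ}

/-- level set -/
def D (J : ℕ) : Finset (ℕ × ℕ) := ((range J) ×ˢ (range (2 ^ J))).filter (fun p => p.2 < 2 ^ p.1)

theorem sum_D (J : ℕ) (f : ℕ × ℕ → ℝ) :
    ∑ p ∈ D J, f p = ∑ j ∈ range J, ∑ k ∈ range (2 ^ j), f (j, k) := by
  apply Finset.sum_finset_product
  intro p
  unfold D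
  simp only [mem_filter, mem_product, mem_range]
  constructor
  · rintro ⟨⟨h1, _⟩, h3⟩; exact ⟨h1, h3⟩
  · rintro ⟨h1, h2⟩
    exact ⟨⟨h1, h2.trans_le (Nat.pow_le_pow_right (by norm_num) h1.le)⟩, h2⟩

/-- index set up to level `J` -/
def AJ (d J : ℕ) : Finset (Idx d) := univ ×ˢ (D J ×ˢ D J)

/-- coefficient of one point evaluation -/
noncomputable def cf (κ : Fin d) (p : ℝ≥0 × ℝ≥0) (α : Idx d) : ℝ :=
  if κ = α.1 then (1 + (p.1 : ℝ)) * (1 + (p.2 : ℝ)) *
    (S α.2.1.1 α.2.1.2 (tc p.1) * S α.2.2.1 α.2.2.2 (tc p.2)) else 0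

theorem sum_cf (κ : Fin d) (p : ℝ≥0 × ℝ≥0) (J : ℕ) (ω : Om d) :
    ∑ α ∈ AJ d J, cf κ p α * ω α = (1 + (p.1 : ℝ)) * (1 + (p.2 : ℝ)) *
      ∑ j ∈ range J, ∑ j' ∈ range J, F κ j j' (tc p.1) (tc p.2) ω := by
  unfold AJ
  rw [sum_product]
  simp only [cf]
  rw [sum_eq_single κ]
  · simp only [if_true]
    rw [sum_product, sum_D, mul_sum]
    refine sum_congr rfl fun j _ => ?_
    unfold F
    simp only [sum_D, mul_sum]
    rw [sum_comm]
    refine sum_congr rfl fun j' _ => ?_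
    refine sum_congr rfl fun k _ => ?_
    refine sum_congr rfl fun k' _ => ?_
    ring
  · intro b _ hb
    refine sum_eq_zero fun q _ => ?_
    rw [if_neg (fun h => hb h.symm), zero_mul]
  · intro h; exact absurd (mem_univ κ) h

theorem sum_cf_cf (κ κ' : Fin d) (p p' : ℝ≥0 × ℝ≥0) (J : ℕ) :
    ∑ α ∈ AJ d J, cf κ p α * cf κ' p' α = if κ = κ' then
      ((1 + (p.1 : ℝ)) * (1 + (p'.1 : ℝ)) *
        ∑ j ∈ range J, ∑ k ∈ range (2 ^ j), S j k (tc p.1) * S j k (tc p'.1)) *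
      ((1 + (p.2 : ℝ)) * (1 + (p'.2 : ℝ)) *
        ∑ j ∈ range J, ∑ k ∈ range (2 ^ j), S j k (tc p.2) * S j k (tc p'.2)) else 0 := by
  unfold AJ
  rw [sum_product]
  simp only [cf]
  split_ifs with h
  · subst h
    rw [sum_eq_single κ]
    · simp only [if_true]
      rw [sum_product, ← sum_D J (fun q => S q.1 q.2 (tc p.1) * S q.1 q.2 (tc p'.1)),
        ← sum_D J (fun q => S q.1 q.2 (tc p.2) * S q.1 q.2 (tc p'.2)), mul_sum, mul_sum,
        sum_mul_sum]
      refine sum_congr rfl fun q _ => ?_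
      refine sum_congr rfl fun q' _ => ?_
      ring
    · intro b _ hb
      refine sum_eq_zero fun q _ => ?_
      rw [if_neg (fun h => hb h.symm), zero_mul]
    · intro h; exact absurd (mem_univ κ) h
  · refine sum_eq_zero fun b _ => ?_
    refine sum_eq_zero fun q _ => ?_
    by_cases h1 : κ = b
    · rw [if_neg (fun h2 : κ' = b => h (h1.trans h2.symm)), mul_zero]
    · rw [if_neg h1, zero_mul]

theorem tendsto_cf_cf (κ κ' : Fin d) (p p' : ℝ≥0 × ℝ≥0) :
    Tendsto (fun J => ∑ α ∈ AJ d J, cf κ p α * cf κ' p' α) atTop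
      (𝓝 (if κ = κ' then ((min p.1 p'.1 * min p.2 p'.2 : ℝ≥0) : ℝ) else 0)) := by
  simp only [sum_cf_cf]
  split_ifs with h
  · have e : ((min p.1 p'.1 * min p.2 p'.2 : ℝ≥0) : ℝ) = min (p.1 : ℝ) p'.1 * min (p.2 : ℝ) p'.2 := by
      push_cast; rfl
    rw [e]
    rw [← tc_cov p.1 p'.1, ← tc_cov p.2 p'.2]
    refine Tendsto.mul ?_ ?_
    · exact (tendsto_sum_S (tc_nonneg _) (tc_le_one _) (tc_nonneg _) (tc_le_one _)).const_mul _
    · exact (tendsto_sum_S (tc_nonneg _) (tc_le_one _) (tc_nonneg _) (tc_le_one _)).const_mul _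
  · exact tendsto_const_nhds

theorem law_Bs (n : ℕ) (c : Fin n → ℝ) (k : Fin n → Fin d) (p : Fin n → ℝ≥0 × ℝ≥0) :
    (Pm d).map (fun ω => ∑ i, c i * Bs ω (p i) (k i)) =
      gaussianReal 0
        (∑ i, ∑ j, c i * c j *
          (if k i = k j then
            ((min (p i).1 (p j).1 * min (p i).2 (p j).2 : ℝ≥0) : ℝ)
           else 0)).toNNReal := by
  let x : Idx d → ℝ := fun α => ∑ i, c i * cf (k i) (p i) α
  refine gaussian_limit (X := fun J ω => ∑ α ∈ AJ d J, x α * ω α)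
    (v := fun J => ∑ α ∈ AJ d J, x α ^ 2) (fun J => by fun_prop)
    (fun J => sum_nonneg fun _ _ => sq_nonneg _) (fun J => map_sum_gaussian _ _) ?_ ?_
  · filter_upwards [ae_Gd (d := d)] with ω hω
    have h1 : ∀ J, ∑ α ∈ AJ d J, x α * ω α = ∑ i, c i * ((1 + ((p i).1 : ℝ)) *
        (1 + ((p i).2 : ℝ)) * ∑ j ∈ range J, ∑ j' ∈ range J,
          F (k i) j j' (tc (p i).1) (tc (p i).2) ω) := by
      intro J
      simp only [x, sum_mul]
      rw [sum_comm]
      refine sum_congr rfl fun i _ => ?_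
      rw [← sum_cf, mul_sum]
      refine sum_congr rfl fun α _ => ?_
      ring
    simp only [h1]
    refine tendsto_finsetSum _ fun i _ => ?_
    refine Tendsto.const_mul _ ?_
    have h2 : Bs ω (p i) (k i) = (1 + ((p i).1 : ℝ)) * (1 + ((p i).2 : ℝ)) *
        bt (k i) (tc (p i).1) (tc (p i).2) ω := by
      unfold Bs
      rw [Set.indicator_of_mem hω]
    rw [h2]
    exact (tendsto_bt hω _ _ _).const_mul _
  · have h1 : ∀ J, ∑ α ∈ AJ d J, x α ^ 2 = ∑ i, ∑ j, c i * c j *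
        ∑ α ∈ AJ d J, cf (k i) (p i) α * cf (k j) (p j) α := by
      intro J
      have : ∀ α, x α ^ 2 = ∑ i, ∑ j, c i * c j * (cf (k i) (p i) α * cf (k j) (p j) α) := by
        intro α
        rw [sq, sum_mul_sum]
        refine sum_congr rfl fun i _ => sum_congr rfl fun j _ => ?_
        ring
      simp only [this]
      rw [sum_comm]
      refine sum_congr rfl fun i _ => ?_
      rw [sum_comm]
      refine sum_congr rfl fun j _ => ?_
      rw [mul_sum]
    simp only [h1]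
    refine tendsto_finsetSum _ fun i _ => tendsto_finsetSum _ fun j _ => ?_
    exact (tendsto_cf_cf _ _ _ _).const_mul _

end Pool.Agent.MP_ef552a_pr
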